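import Mathlib

/-! Statements of modules. -/

namespace Pool.Agent.Helper7.JQ

open Finset

/-- numbers below `M` prime to `M` -/
def cop (M : ℕ) : Finset ℕ := (range M).filter (fun a => Nat.Coprime a M)

/-- Ramanujan sums. -/
def S_RAM : Prop := ∀ (M : ℕ), 0 < M → ∀ (lam : ℂ), lam ^ M = 1 →
  (Nat.totient (orderOf lam) : ℂ) * ∑ a ∈ cop M, lam ^ a =
    (ArithmeticFunction.moebius (orderOf lam) : ℂ) * Nat.totient M

/-- Two factors. -/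
def S_POS2 : Prop := ∀ (M : ℕ), 0 < M → ¬ 6 ∣ M → ∀ (s t : ℂ), s ^ M = 1 → t ^ M = 1 →
  s ≠ 1 → t ≠ 1 → 0 ≤ (∑ a ∈ cop M, (1 - s ^ a) * (1 - t ^ a)).re

/-- Three factors. -/
def S_POS3 : Prop := ∀ (M : ℕ), (0 < M ∧ Nat.Coprime M 6 ∨ ∃ k, M = 3 ^ k) →
  ∀ (s t u : ℂ), s ^ M = 1 → t ^ M = 1 → u ^ M = 1 →
  s ≠ 1 → t ≠ 1 → u ≠ 1 → 0 ≤ (∑ a ∈ cop M, (1 - s ^ a) * (1 - t ^ a) * (1 - u ^ a)).re

/-- Decomposition of traces over the roots of the equations `lam k * r ^ m k = 1`. -/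
def S_ZFORM : Prop := ∀ (K L : Type) (_ : Fintype K) (_ : Fintype L) (lam : K → ℂ) (m : K → ℕ)
    (mu : L → ℂ) (e : L → ℕ) (N M : ℕ), 0 < M → (∀ k, lam k ^ N = 1) → (∀ l, mu l ^ N = 1) →
    (∀ k, 0 < m k ∧ N * m k ∣ M) → (∀ l, 2 ≤ e l ∧ N * e l ∣ M) →
    ∀ t : ℂ, (univ.filter (fun l => mu l * t ^ e l = 1)).card <
        (univ.filter (fun k => lam k * t ^ m k = 1)).card →
      (∀ r : ℂ, r ≠ t → (univ.filter (fun k => lam k * r ^ m k = 1)).card ≤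
        (univ.filter (fun l => mu l * r ^ e l = 1)).card) →
      ∃ (F : Finset ℂ) (u : ℂ → ℕ), (∀ r ∈ F, (t / r) ^ M = 1 ∧ t / r ≠ 1) ∧
        ((univ.filter (fun k => lam k * t ^ m k = 1)).card : ℤ) -
            (univ.filter (fun l => mu l * t ^ e l = 1)).card =
          ∑ k, (m k : ℤ) - ∑ l, (e l : ℤ) + ∑ r ∈ F, (u r : ℤ) ∧
        (∀ a : ℕ, Nat.Coprime a M → t ^ a * ∑ k ∈ univ.filter (fun k => m k = 1), lam k ^ a =
          (∑ k, (m k : ℂ) - ∑ l, (e l : ℂ)) + ∑ r ∈ F, (u r : ℂ) * (1 - (t / r) ^ a)) ∧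
        ‖t * ∑ k ∈ univ.filter (fun k => m k = 1), lam k -
            (((univ.filter (fun k => lam k * t ^ m k = 1)).card : ℂ) -
              (univ.filter (fun l => mu l * t ^ e l = 1)).card)‖ ≤
          ∑ k, (m k : ℝ) - (((univ.filter (fun k => lam k * t ^ m k = 1)).card : ℝ) -
              (univ.filter (fun l => mu l * t ^ e l = 1)).card)

/-- The case of equality. -/
def S_NUM0 : Prop := ∀ (K L : Type) (_ : Fintype K) (_ : Fintype L) (lam : K → ℂ) (m : K → ℕ)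
    (mu : L → ℂ) (e : L → ℕ) (N M : ℕ), 0 < M → (∀ k, lam k ^ N = 1) → (∀ l, mu l ^ N = 1) →
    (∀ k, 0 < m k ∧ N * m k ∣ M) → (∀ l, 2 ≤ e l ∧ N * e l ∣ M) →
      (∀ r : ℂ, (univ.filter (fun k => lam k * r ^ m k = 1)).card ≤
        (univ.filter (fun l => mu l * r ^ e l = 1)).card) →
      ∑ l, e l ≤ ∑ k, m k →
      ∀ a : ℕ, Nat.Coprime a M → ∑ k ∈ univ.filter (fun k => m k = 1), lam k ^ a = 0

end Pool.Agent.Helper7.JQ
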