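import Mathlib

/-! Arguments of products of complex numbers in discs. -/

namespace Pool.Agent.Helper7.JQ

open Finset

/-- A number in the disc of centre `A` and radius `q A` has argument at most `arcsin q`. -/
theorem arg_le {z : ℂ} {A q : ℝ} (hA : 0 < A) (hq0 : 0 ≤ q) (hq : q ≤ 1) (h : ‖z - A‖ ≤ q * A) :
    |Complex.arg z| ≤ Real.arcsin q := by
  by_cases hz : z = 0
  · subst hz; simpa using Real.arcsin_nonneg.mpr hq0
  have h1 : (z.re - A) ^ 2 + z.im ^ 2 ≤ (q * A) ^ 2 := by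
    have h2 : ‖z - A‖ ^ 2 ≤ (q * A) ^ 2 := pow_le_pow_left₀ (norm_nonneg _) h 2
    rw [Complex.sq_norm, Complex.normSq_apply] at h2
    simp only [Complex.sub_re, Complex.ofReal_re, Complex.sub_im, Complex.ofReal_im, sub_zero] at h2
    nlinarith
  have hre : 0 ≤ z.re := by
    have h3 : |(z - A).re| ≤ q * A := (Complex.abs_re_le_norm _).trans h
    rw [Complex.sub_re, Complex.ofReal_re] at h3
    have h4 := (abs_le.mp h3).1
    nlinarith
  have hn : 0 < ‖z‖ := norm_pos_iff.mpr hz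
  have hn2 : ‖z‖ ^ 2 = z.re ^ 2 + z.im ^ 2 := by
    rw [Complex.sq_norm, Complex.normSq_apply]; ring
  have key : z.im ^ 2 ≤ (q * ‖z‖) ^ 2 := by
    rw [mul_pow, hn2]
    have h5 : 0 ≤ (z.re - A * (1 - q ^ 2)) ^ 2 := sq_nonneg _
    have h6 : 0 ≤ 1 - q ^ 2 := by nlinarith
    have h7 : (1 - q ^ 2) * ((z.re - A) ^ 2 + z.im ^ 2) ≤ (1 - q ^ 2) * (q * A) ^ 2 :=
      mul_le_mul_of_nonneg_left h1 h6
    nlinarith
  have him : |z.im| ≤ q * ‖z‖ := abs_le_of_sq_le_sq key (by positivity)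
  rw [Complex.arg_of_re_nonneg hre]
  have h8 := abs_le.mp him
  have h9 : z.im / ‖z‖ ≤ q := by rw [div_le_iff₀ hn]; exact h8.2
  have h10 : -q ≤ z.im / ‖z‖ := by rw [le_div_iff₀ hn]; linarith [h8.1]
  rw [abs_le]
  constructor
  · rw [← Real.arcsin_neg]; exact Real.monotone_arcsin h10
  · exact Real.monotone_arcsin h9

/-- The product of complex numbers whose arguments are small. -/
theorem re_prod_nonneg {ι : Type*} (s : Finset ι) (z : ι → ℂ) (θ : ι → ℝ)
    (h : ∀ i ∈ s, |Complex.arg (z i)| ≤ θ i) (hs : ∑ i ∈ s, θ i ≤ Real.pi / 2) :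
    0 ≤ (∏ i ∈ s, z i).re := by
  have h1 : ∏ i ∈ s, z i = ((∏ i ∈ s, ‖z i‖ : ℝ) : ℂ) *
      Complex.exp (((∑ i ∈ s, Complex.arg (z i) : ℝ) : ℂ) * Complex.I) := by
    rw [Complex.ofReal_prod, Complex.ofReal_sum, Finset.sum_mul, Complex.exp_sum,
      ← Finset.prod_mul_distrib]
    exact Finset.prod_congr rfl (fun i _ => (Complex.norm_mul_exp_arg_mul_I (z i)).symm)
  rw [h1, Complex.re_ofReal_mul, Complex.exp_ofReal_mul_I_re]
  refine mul_nonneg (Finset.prod_nonneg (fun _ _ => norm_nonneg _)) ?_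
  have h2 : |∑ i ∈ s, Complex.arg (z i)| ≤ Real.pi / 2 :=
    (Finset.abs_sum_le_sum_abs _ _).trans ((Finset.sum_le_sum h).trans hs)
  exact Real.cos_nonneg_of_mem_Icc (abs_le.mp h2)

end Pool.Agent.Helper7.JQ
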