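import Mathlib
import Pool.Graph.R_seed8.H964R2.Core.Main

/-! Spectral data of an automorphism of finite order of a weighted complete intersection. -/

namespace Pool.Agent.Helper7.JQ

open MvPolynomial Pool.Agent.H964R2.Core

/-- The matrix of `T` on the variables of weight one: the coefficient of `X l'` in `T (X l)`. -/
noncomputable def mat {n : ℕ} (w : Fin n → ℕ)
    (T : MvPolynomial (Fin n) ℂ ≃ₐ[ℂ] MvPolynomial (Fin n) ℂ) :
    Matrix {l // w l = 1} {l // w l = 1} ℂ :=
  fun l' l => coeff (Finsupp.single l'.1 1) (T (X l.1))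

theorem expand {n : ℕ} (w : Fin n → ℕ) {q : MvPolynomial (Fin n) ℂ}
    (hq : q ∈ Submodule.span ℂ ((X : Fin n → MvPolynomial (Fin n) ℂ) '' {k | w k = 1})) :
    q = ∑ l : {l // w l = 1}, coeff (Finsupp.single l.1 1) q • (X l.1 : MvPolynomial (Fin n) ℂ) := by
  classical
  refine Submodule.span_induction (p := fun q _ => q = ∑ l : {l // w l = 1},
    coeff (Finsupp.single l.1 1) q • (X l.1 : MvPolynomial (Fin n) ℂ)) ?_ ?_ ?_ ?_ hq
  · rintro _ ⟨i, hi, rfl⟩
    rw [Finset.sum_eq_single (⟨i, hi⟩ : {l // w l = 1})]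
    · rw [coeff_X]; simp
    · intro b _ hb
      have : b.1 ≠ i := fun h => hb (Subtype.ext h)
      rw [MvPolynomial.coeff_X, if_neg, zero_smul]
      intro h
      exact this ((Finsupp.single_left_inj one_ne_zero).mp h.symm)
    · intro h; exact absurd (Finset.mem_univ _) h
  · simp
  · intro x y _ _ hx hy
    conv_lhs => rw [hx, hy]
    rw [← Finset.sum_add_distrib]
    exact Finset.sum_congr rfl (fun l _ => by rw [coeff_add, add_smul])
  · intro r x _ hx
    conv_lhs => rw [hx]
    rw [Finset.smul_sum]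
    exact Finset.sum_congr rfl (fun l _ => by rw [coeff_smul, smul_smul, smul_eq_mul])

theorem card_eq_of_sum {K : Type*} [Fintype K] {n : ℕ} (m : K → ℕ) (w : Fin n → ℕ)
    (h : ∀ d, (Finset.univ.filter (fun k => m k = d)).card =
      (Finset.univ.filter (fun i => w i = d)).card) : Fintype.card K = n := by
  classical
  set D : Finset ℕ := Finset.univ.image m ∪ Finset.univ.image w with hD
  have h1 : (Finset.univ : Finset K).card = ∑ d ∈ D, (Finset.univ.filter (fun k => m k = d)).card :=
    Finset.card_eq_sum_card_fiberwise (fun k _ => by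
      rw [hD]; exact Finset.mem_union_left _ (Finset.mem_image_of_mem _ (Finset.mem_univ _)))
  have h2 : (Finset.univ : Finset (Fin n)).card =
      ∑ d ∈ D, (Finset.univ.filter (fun k => w k = d)).card :=
    Finset.card_eq_sum_card_fiberwise (fun k _ => by
      rw [hD]; exact Finset.mem_union_right _ (Finset.mem_image_of_mem _ (Finset.mem_univ _)))
  rw [Finset.card_univ] at h1 h2
  rw [Fintype.card_fin] at h2
  rw [h1, h2]
  exact Finset.sum_congr rfl (fun d _ => h d)

theorem card_le_of {K : Type*} [Fintype K] {n : ℕ} (m : K → ℕ) (w : Fin n → ℕ)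
    (h : ∀ d, (Finset.univ.filter (fun k => m k = d)).card ≤
      (Finset.univ.filter (fun i => w i = d)).card) : Fintype.card K ≤ n := by
  classical
  set D : Finset ℕ := Finset.univ.image m ∪ Finset.univ.image w with hD
  have h1 : (Finset.univ : Finset K).card = ∑ d ∈ D, (Finset.univ.filter (fun k => m k = d)).card :=
    Finset.card_eq_sum_card_fiberwise (fun k _ => by
      rw [hD]; exact Finset.mem_union_left _ (Finset.mem_image_of_mem _ (Finset.mem_univ _)))
  have h2 : (Finset.univ : Finset (Fin n)).card =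
      ∑ d ∈ D, (Finset.univ.filter (fun k => w k = d)).card :=
    Finset.card_eq_sum_card_fiberwise (fun k _ => by
      rw [hD]; exact Finset.mem_union_right _ (Finset.mem_image_of_mem _ (Finset.mem_univ _)))
  rw [Finset.card_univ] at h1 h2
  rw [Fintype.card_fin] at h2
  rw [h1, h2]
  exact Finset.sum_le_sum (fun d _ => h d)

theorem spec {n c : ℕ} (w : Fin n → ℕ) (hw : ∀ l, 0 < w l)
    (f : Fin c → MvPolynomial (Fin n) ℂ) (d : Fin c → ℕ) (hd : ∀ j, 2 ≤ d j)
    (hf : ∀ j, IsWeightedHomogeneous w (f j) (d j))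
    (T : MvPolynomial (Fin n) ℂ ≃ₐ[ℂ] MvPolynomial (Fin n) ℂ) {N : ℕ} (hN : 0 < N)
    (hT : T ^ N = 1)
    (hX : ∀ l, T (X l) ∈
      Submodule.span ℂ ((X : Fin n → MvPolynomial (Fin n) ℂ) '' {k | w k = w l}))
    (hTf : ∀ j, T (f j) ∈ Submodule.span ℂ (f '' {k | d k = d j})) :
    ∃ (K L : Type) (_ : Fintype K) (_ : Fintype L) (lam : K → ℂ) (m : K → ℕ) (mu : L → ℂ)
      (e : L → ℕ),
      (∀ k, lam k ^ N = 1) ∧ (∀ l, mu l ^ N = 1) ∧ (∀ k, ∃ i, w i = m k) ∧
      (∀ l, ∃ j, d j = e l) ∧ (∑ k, m k = ∑ l, w l) ∧ (∑ l, e l ≤ ∑ j, d j) ∧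
      Fintype.card K = n ∧ Fintype.card L ≤ c ∧
      (T = 1 → (∀ k, lam k = 1) ∧ ∀ l, mu l = 1) ∧
      (∀ t : ℂ, (Finset.univ.filter (fun l => mu l * t ^ e l = 1)).card <
        (Finset.univ.filter (fun k => lam k * t ^ m k = 1)).card →
        ∃ v : Fin n → ℂ, v ≠ 0 ∧ (∀ j, eval v (f j) = 0) ∧
          ∀ i, eval v (T (X i)) = (t⁻¹) ^ (w i) * v i) ∧
      (∀ a : ℕ, (mat w (T ^ a)).trace =
        ∑ k ∈ Finset.univ.filter (fun k => m k = 1), lam k ^ a) := by
  classical
  obtain ⟨K, _, b, m, lam, hb, hTb, hlam, hm, hspan⟩ := exists_adapted (w := w) T hN hT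
    (X : Fin n → MvPolynomial (Fin n) ℂ) w (fun i => isWeightedHomogeneous_X ℂ w i) hX
  obtain ⟨L, _, h, e, mu, hh, hTh, hmu, he, hspan'⟩ := exists_adapted (w := w) T hN hT
    f d hf hTf
  have hm0 : ∀ k, 0 < m k := fun k => by
    obtain ⟨i, hi⟩ := hm k
    rw [← hi]; exact hw i
  have he2 : ∀ k, 2 ≤ e k := fun k => by
    obtain ⟨i, hi⟩ := he k
    rw [← hi]; exact hd i
  have hhom : ∀ l, IsWeightedHomogeneous w (h l) (e l) := by
    intro l
    have h1 : h l ∈ Submodule.span ℂ (f '' {j | d j = e l}) := by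
      rw [← hspan']; exact Submodule.subset_span ⟨l, rfl, rfl⟩
    have h2 : Submodule.span ℂ (f '' {j | d j = e l}) ≤ weightedHomogeneousSubmodule ℂ w (e l) := by
      apply Submodule.span_le.mpr
      rintro _ ⟨i, hi, rfl⟩
      rw [SetLike.mem_coe, mem_weightedHomogeneousSubmodule]
      have := hf i
      rw [show d i = e l from hi] at this
      exact this
    exact (mem_weightedHomogeneousSubmodule _ _ _ _).mp (h2 h1)
  have hfh : ∀ v : Fin n → ℂ, (∀ l, eval v (h l) = 0) → ∀ j, eval v (f j) = 0 := by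
    intro v hv j
    have h1 : f j ∈ Submodule.span ℂ (h '' {l | e l = d j}) := by
      rw [hspan']; exact Submodule.subset_span ⟨j, rfl, rfl⟩
    refine Submodule.span_induction (p := fun q _ => eval v q = 0) ?_ ?_ ?_ ?_ h1
    · rintro _ ⟨l, _, rfl⟩; exact hv l
    · simp
    · intro x y _ _ hx hy; rw [map_add, hx, hy, add_zero]
    · intro r x _ hx; rw [smul_eval, hx, mul_zero]
  have hTa : ∀ (q : MvPolynomial (Fin n) ℂ) (c : ℂ), T q = c • q → ∀ a : ℕ,
      (T ^ a) q = c ^ a • q := by
    intro q c hq a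
    induction a with
    | zero => simp
    | succ a ih => rw [pow_succ', AlgEquiv.mul_apply, ih, map_smul, hq, smul_smul, pow_succ]
  have hroot : ∀ (q : MvPolynomial (Fin n) ℂ) (c : ℂ), q ≠ 0 → T q = c • q → c ^ N = 1 := by
    intro q c hq0 hq
    have h1 := hTa q c hq N
    rw [hT, AlgEquiv.one_apply] at h1
    have h2 : (c ^ N - 1) • q = 0 := by rw [sub_smul, ← h1, one_smul, sub_self]
    rcases smul_eq_zero.mp h2 with h3 | h3
    · exact sub_eq_zero.mp h3
    · exact absurd h3 hq0
  have hone : ∀ (q : MvPolynomial (Fin n) ℂ) (c : ℂ), q ≠ 0 → T q = c • q → T = 1 → c = 1 := by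
    intro q c hq0 hq hT1
    rw [hT1, AlgEquiv.one_apply] at hq
    have h2 : (c - 1) • q = 0 := by rw [sub_smul, ← hq, one_smul, sub_self]
    rcases smul_eq_zero.mp h2 with h3 | h3
    · exact sub_eq_zero.mp h3
    · exact absurd h3 hq0
  have hcard : ∀ e, (Finset.univ.filter (fun k => m k = e)).card =
      (Finset.univ.filter (fun i => w i = e)).card := fun e =>
    le_antisymm
      (card_le (X : Fin n → MvPolynomial (Fin n) ℂ) w b m hb e (hspan e).le)
      (card_le b m (X : Fin n → MvPolynomial (Fin n) ℂ) w (linearIndependent_X _ _) e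
        (hspan e).symm.le)
  have hcard' : ∀ d', (Finset.univ.filter (fun k => e k = d')).card ≤
      (Finset.univ.filter (fun i => d i = d')).card := fun e' =>
    card_le f d h e hh e' (hspan' e').le
  refine ⟨K, L, inferInstance, inferInstance, lam, m, mu, e, fun k => hroot _ _ (hb.ne_zero k) (hTb k),
    fun l => hroot _ _ (hh.ne_zero l) (hTh l), hm, he, ?_, ?_, card_eq_of_sum m w hcard,
    card_le_of e d hcard', fun h1 => ⟨fun k => hone _ _ (hb.ne_zero k) (hTb k) h1,
      fun l => hone _ _ (hh.ne_zero l) (hTh l) h1⟩, ?_, ?_⟩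
  · exact le_antisymm (sum_deg_le w m (fun e => (hcard e).le)) (sum_deg_le m w (fun e => (hcard e).ge))
  · exact sum_deg_le d e hcard'
  · intro t ht
    by_contra hcon
    push Not at hcon
    have := geo (w := w) T b m lam hb hTb hm0 hspan h e mu
      (fun l => by have := he2 l; omega) hhom hTh t (by
        intro v hv hhv hTv
        obtain ⟨i, hi⟩ := hcon v hv (hfh v hhv)
        exact hi (hTv i))
    omega
  · intro a
    set U : Submodule ℂ (MvPolynomial (Fin n) ℂ) :=
      Submodule.span ℂ ((X : Fin n → MvPolynomial (Fin n) ℂ) '' {i | w i = 1}) with hU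
    have hUT : ∀ u ∈ U, T u ∈ U := by
      intro u hu
      refine Submodule.span_induction (p := fun u _ => T u ∈ U) ?_ ?_ ?_ ?_ hu
      · rintro _ ⟨i, hi, rfl⟩
        have := hX i
        rw [show w i = 1 from hi] at this
        exact this
      · rw [map_zero]; exact Submodule.zero_mem _
      · intro a b _ _ ha hb
        rw [map_add]; exact Submodule.add_mem _ ha hb
      · intro c a _ ha
        rw [map_smul]; exact Submodule.smul_mem _ _ ha
    have hUTa : ∀ a : ℕ, ∀ u ∈ U, (T ^ a).toLinearMap u ∈ U := by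
      intro a
      induction a with
      | zero => intro u hu; exact hu
      | succ a ih =>
        intro u hu
        have h2 : (T ^ (a + 1)).toLinearMap u = T ((T ^ a) u) := by
          rw [pow_succ']; rfl
        rw [h2]
        exact hUT _ (ih u hu)
    let g : U →ₗ[ℂ] U := (T ^ a).toLinearMap.restrict (hUTa a)
    have hg : ∀ u : U, ((g u : U) : MvPolynomial (Fin n) ℂ) = (T ^ a) u := fun u => rfl
    have h1 : LinearMap.trace ℂ U g = ∑ k ∈ Finset.univ.filter (fun k => m k = 1), lam k ^ a := by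
      have hbU : ∀ k : {k // m k = 1}, b k ∈ U := by
        intro k
        rw [hU, ← hspan]
        exact Submodule.subset_span ⟨k, k.2, rfl⟩
      have hli : LinearIndependent ℂ (fun k : {k // m k = 1} => (⟨b k, hbU k⟩ : U)) := by
        apply LinearIndependent.of_comp U.subtype
        exact hb.comp _ Subtype.val_injective
      have htop : ⊤ ≤ Submodule.span ℂ (Set.range
          (fun k : {k // m k = 1} => (⟨b k, hbU k⟩ : U))) := by
        rintro ⟨u, hu⟩ _
        have hu' := hu
        rw [hU, ← hspan] at hu'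
        have h1 : b '' {k | m k = 1} = U.subtype '' (Set.range
            (fun k : {k // m k = 1} => (⟨b k, hbU k⟩ : U))) := by
          ext q
          constructor
          · rintro ⟨k, hk, rfl⟩
            exact ⟨⟨b k, hbU ⟨k, hk⟩⟩, ⟨⟨k, hk⟩, rfl⟩, rfl⟩
          · rintro ⟨_, ⟨k, rfl⟩, rfl⟩
            exact ⟨k, k.2, rfl⟩
        rw [h1, Submodule.span_image] at hu'
        obtain ⟨u', hu1, hu2⟩ := hu'
        have : u' = ⟨u, hu⟩ := Subtype.ext hu2
        rw [← this]; exact hu1
      have h2 := trace_of_eigenbasis (Module.Basis.mk hli htop) g (fun k => lam k ^ a) (by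
        intro k
        rw [Module.Basis.mk_apply]
        apply Subtype.ext
        rw [hg]
        exact hTa _ _ (hTb k) a)
      rw [h2]
      rw [← Finset.sum_subtype_eq_sum_filter]
      refine (Finset.sum_congr ?_ (fun _ _ => rfl))
      ext k; simp
    rw [← h1]
    have hXU : ∀ k : {k // w k = 1}, (X k.1 : MvPolynomial (Fin n) ℂ) ∈ U := fun k =>
      Submodule.subset_span ⟨k, k.2, rfl⟩
    have hli : LinearIndependent ℂ (fun k : {k // w k = 1} => (⟨X k.1, hXU k⟩ : U)) := by
      apply LinearIndependent.of_comp U.subtype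
      exact (linearIndependent_X _ _).comp _ Subtype.val_injective
    have htop : ⊤ ≤ Submodule.span ℂ (Set.range
        (fun k : {k // w k = 1} => (⟨X k.1, hXU k⟩ : U))) := by
      rintro ⟨u, hu⟩ _
      have h2 := expand w hu
      have h3 : (⟨u, hu⟩ : U) = ∑ l : {l // w l = 1}, coeff (Finsupp.single l.1 1) u •
          (⟨X l.1, hXU l⟩ : U) := by
        apply Subtype.ext
        rw [AddSubmonoidClass.coe_finsetSum]
        exact h2
      rw [h3]
      exact Submodule.sum_mem _ (fun l _ => Submodule.smul_mem _ _ (Submodule.subset_span ⟨l, rfl⟩))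
    let B := Module.Basis.mk hli htop
    have hB : ∀ k, B k = (⟨X k.1, hXU k⟩ : U) := fun k => Module.Basis.mk_apply hli htop k
    rw [LinearMap.trace_eq_matrix_trace ℂ B, Matrix.trace, Matrix.trace]
    refine Finset.sum_congr rfl (fun k _ => ?_)
    rw [Matrix.diag_apply, Matrix.diag_apply, LinearMap.toMatrix_apply, hB]
    have h2 := expand w (g ⟨X k.1, hXU k⟩).2
    have h3 : g ⟨X k.1, hXU k⟩ = ∑ l : {l // w l = 1},
        coeff (Finsupp.single l.1 1) ((g ⟨X k.1, hXU k⟩ : U) : MvPolynomial (Fin n) ℂ) • B l := by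
      apply Subtype.ext
      rw [AddSubmonoidClass.coe_finsetSum]
      simp only [hB]
      exact h2
    rw [h3, map_sum, Finsupp.finsetSum_apply]
    rw [Finset.sum_eq_single k]
    · rw [map_smul, Module.Basis.repr_self, Finsupp.smul_apply, Finsupp.single_eq_same, smul_eq_mul,
        mul_one]
      rfl
    · intro l _ hl
      rw [map_smul, Module.Basis.repr_self, Finsupp.smul_apply, Finsupp.single_apply, if_neg hl,
        smul_zero]
    · intro h; exact absurd (Finset.mem_univ _) h

end Pool.Agent.Helper7.JQ
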