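import Mathlib
import Pool.Agent.Helper7.JQ.Spec

/-! Finite groups acting jointly on several weighted complete intersections. -/

namespace Pool.Agent.Helper7.JQ

open MvPolynomial Pool.Agent.H964R2.Core

/-- linear changes of variables and other automorphisms of the polynomial ring -/
abbrev Auts (n : ℕ) : Type := MvPolynomial (Fin n) ℂ ≃ₐ[ℂ] MvPolynomial (Fin n) ℂ

/-- `T` maps every variable to a linear combination of variables of the same weight. -/
def PresX {n : ℕ} (w : Fin n → ℕ) (T : Auts n) : Prop :=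
  ∀ l, T (X l) ∈ Submodule.span ℂ ((X : Fin n → MvPolynomial (Fin n) ℂ) '' {k | w k = w l})

/-- `T` maps every equation to a linear combination of equations of the same degree. -/
def PresF {n c : ℕ} (d : Fin c → ℕ) (f : Fin c → MvPolynomial (Fin n) ℂ) (T : Auts n) : Prop :=
  ∀ j, T (f j) ∈ Submodule.span ℂ (f '' {k | d k = d j})

/-- Weighted complete intersections `Y i` with equations `f i j` of degrees `d i j ≥ 2` in
variables of weights `w i l > 0`, and a group `G` which acts linearly on the variables of every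
`Y i`, preserving the weights and the span of the equations of each degree. -/
structure Datum (ι : Type) (G : Type) [Group G] where
  n : ι → ℕ
  c : ι → ℕ
  w : ∀ i, Fin (n i) → ℕ
  w_pos : ∀ i l, 0 < w i l
  d : ∀ i, Fin (c i) → ℕ
  two_le : ∀ i j, 2 ≤ d i j
  f : ∀ i, Fin (c i) → MvPolynomial (Fin (n i)) ℂ
  hom : ∀ i j, IsWeightedHomogeneous (w i) (f i j) (d i j)
  φ : ∀ i, G →* Auts (n i)
  map_X : ∀ i g, PresX (w i) (φ i g)
  map_f : ∀ i g, PresF (d i) (f i) (φ i g)

namespace Datum

variable {ι : Type} {G : Type} [Group G] (D : Datum ι G)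

/-- The polynomial ring in all the variables. -/
abbrev Poly : Type := MvPolynomial (Σ i, Fin (D.n i)) ℂ

/-- The ideal of the product of the `Y i`. -/
noncomputable def I : Ideal D.Poly :=
  Ideal.span (Set.range fun s : Σ i, Fin (D.c i) => rename (Sigma.mk s.1) (D.f s.1 s.2))

/-- The joint action of `g` on all the variables. -/
noncomputable def act (g : G) : D.Poly →ₐ[ℂ] D.Poly :=
  aeval fun s => rename (Sigma.mk s.1) (D.φ s.1 g (X s.2))

/-- `P` is homogeneous of degree `m` in the variables of every `Y i` and its class modulo the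
ideal is invariant. -/
def Inv [DecidableEq ι] (m : ℕ) (P : D.Poly) : Prop :=
  (∀ i, IsWeightedHomogeneous
    (fun s : Σ i, Fin (D.n i) => if s.1 = i then D.w s.1 s.2 else 0) P m) ∧
    ∀ g, D.act g P - P ∈ D.I

/-- At every point of the product of the `Y i` invariant forms of two consecutive degrees do not
vanish. -/
def SectionRing [DecidableEq ι] : Prop :=
  ∀ v : ∀ i, Fin (D.n i) → ℂ, (∀ i, v i ≠ 0) → (∀ i j, eval (v i) (D.f i j) = 0) →
    ∃ (m : ℕ) (a b : D.Poly), D.Inv m a ∧ D.Inv (m + 1) b ∧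
      eval (fun s => v s.1 s.2) a ≠ 0 ∧ eval (fun s => v s.1 s.2) b ≠ 0

/-- the sum of the weights of `Y i` -/
def W (i : ι) : ℕ := ∑ l, D.w i l

/-- the sum of the degrees of `Y i` -/
def E (i : ι) : ℕ := ∑ j, D.d i j

theorem eval_act (g : G) (v : ∀ i, Fin (D.n i) → ℂ) (P : D.Poly) :
    eval (fun s => v s.1 s.2) (D.act g P) =
      eval (fun s => eval (v s.1) (D.φ s.1 g (X s.2))) P := by
  rw [act, eval_aeval']
  congr 2
  funext s
  rw [eval_rename]
  rfl

theorem eval_I {v : ∀ i, Fin (D.n i) → ℂ} (hv : ∀ i j, eval (v i) (D.f i j) = 0) {P : D.Poly}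
    (hP : P ∈ D.I) : eval (fun s => v s.1 s.2) P = 0 := by
  refine Submodule.span_induction
    (p := fun q _ => eval (fun s : Σ i, Fin (D.n i) => v s.1 s.2) q = 0) ?_ ?_ ?_ ?_ hP
  · rintro _ ⟨s, rfl⟩
    rw [eval_rename]
    exact hv s.1 s.2
  · simp
  · intro x y _ _ hx hy; rw [map_add, hx, hy, add_zero]
  · intro r x _ hx; rw [smul_eq_mul, map_mul, hx, mul_zero]

theorem eval_scale_multi [Fintype ι] [DecidableEq ι] {m : ℕ} {P : D.Poly}
    (hP : ∀ i, IsWeightedHomogeneous
      (fun s : Σ i, Fin (D.n i) => if s.1 = i then D.w s.1 s.2 else 0) P m)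
    (z : ι → ℂ) (v : ∀ i, Fin (D.n i) → ℂ) :
    eval (fun s : Σ i, Fin (D.n i) => z s.1 ^ D.w s.1 s.2 * v s.1 s.2) P =
      (∏ i, z i) ^ m * eval (fun s => v s.1 s.2) P := by
  rw [MvPolynomial.eval_eq', MvPolynomial.eval_eq', Finset.mul_sum]
  refine Finset.sum_congr rfl (fun s hs => ?_)
  have h1 : ∀ i, ∑ l, s ⟨i, l⟩ * D.w i l = m := by
    intro i
    have := hP i (MvPolynomial.mem_support_iff.mp hs)
    rw [← this, Finsupp.weight_apply, Finsupp.sum_fintype _ _ (by intro i; simp),
      Fintype.sum_sigma, Finset.sum_eq_single i]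
    · refine Finset.sum_congr rfl (fun l _ => ?_)
      rw [if_pos rfl, smul_eq_mul]
    · intro j _ hj
      refine Finset.sum_eq_zero (fun l _ => ?_)
      rw [if_neg hj, smul_zero]
    · intro h; exact absurd (Finset.mem_univ _) h
  have h2 : ∏ i : Σ i, Fin (D.n i), (z i.1 ^ D.w i.1 i.2 * v i.1 i.2) ^ s i =
      (∏ i, z i) ^ m * ∏ i : Σ i, Fin (D.n i), v i.1 i.2 ^ s i := by
    simp only [mul_pow, Finset.prod_mul_distrib, ← pow_mul]
    congr 1
    rw [Fintype.prod_sigma, ← Finset.prod_pow]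
    refine Finset.prod_congr rfl (fun i _ => ?_)
    change ∏ y : Fin (D.n i), z i ^ (D.w i y * s ⟨i, y⟩) = z i ^ m
    rw [Finset.prod_pow_eq_pow_sum]
    congr 1
    rw [← h1 i]
    refine Finset.sum_congr rfl (fun l _ => ?_)
    rw [mul_comm]
  rw [h2]; ring

theorem prod_eq_one [Fintype ι] [DecidableEq ι] (hS : D.SectionRing) (g : G) (t : ι → ℂ)
    (v : ∀ i, Fin (D.n i) → ℂ) (hv0 : ∀ i, v i ≠ 0) (hv : ∀ i j, eval (v i) (D.f i j) = 0)
    (ht : ∀ i l, eval (v i) (D.φ i g (X l)) = (t i)⁻¹ ^ (D.w i l) * v i l) : ∏ i, t i = 1 := by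
  obtain ⟨m, a, b, ha, hb, hav, hbv⟩ := hS v hv0 hv
  have key : ∀ (m : ℕ) (P : D.Poly), D.Inv m P → eval (fun s => v s.1 s.2) P ≠ 0 →
      (∏ i, (t i)⁻¹) ^ m = 1 := by
    intro m P hP hPv
    have h1 : eval (fun s => v s.1 s.2) (D.act g P) = eval (fun s => v s.1 s.2) P := by
      have := D.eval_I hv (hP.2 g)
      rw [map_sub] at this
      exact sub_eq_zero.mp this
    rw [D.eval_act] at h1
    simp only [ht] at h1
    rw [D.eval_scale_multi hP.1 (fun i => (t i)⁻¹) v] at h1
    exact mul_right_cancel₀ hPv (by rw [one_mul]; exact h1)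
  have h1 := key m a ha hav
  have h2 := key (m + 1) b hb hbv
  rw [pow_succ, h1, one_mul, Finset.prod_inv_distrib] at h2
  exact inv_eq_one.mp h2

/-! ### The degree one part -/

/-- indices of the products of variables of weight one -/
abbrev Idx : Type := ∀ i, {l : Fin (D.n i) // D.w i l = 1}

/-- the exponent of the product of the variables `X ⟨i, x i⟩` -/
noncomputable def ex [Fintype ι] (x : D.Idx) : (Σ i, Fin (D.n i)) →₀ ℕ :=
  ∑ i, Finsupp.single ⟨i, (x i).1⟩ 1

theorem ex_apply [Fintype ι] [DecidableEq ι] (x : D.Idx) (i : ι) (l : Fin (D.n i)) :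
    D.ex x ⟨i, l⟩ = if (x i).1 = l then 1 else 0 := by
  classical
  rw [ex, Finsupp.finsetSum_apply, Finset.sum_eq_single i]
  · rw [Finsupp.single_apply]
    refine if_congr ?_ rfl rfl
    constructor
    · intro h
      simpa using h
    · rintro rfl; rfl
  · intro j _ hj
    rw [Finsupp.single_apply, if_neg]
    intro h
    exact hj (congrArg Sigma.fst h)
  · intro h; exact absurd (Finset.mem_univ _) h

theorem ex_injective [Fintype ι] : Function.Injective D.ex := by
  classical
  intro x y h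
  funext i
  have h1 := DFunLike.congr_fun h ⟨i, (x i).1⟩
  rw [ex_apply, ex_apply, if_pos rfl] at h1
  by_contra hne
  rw [if_neg] at h1
  · exact one_ne_zero h1
  · intro h2
    exact hne (Subtype.ext h2.symm)

/-- the form with coefficients `u` -/
noncomputable def form [Fintype ι] [DecidableEq ι] (u : D.Idx → ℂ) : D.Poly :=
  ∑ x, u x • ∏ i, X ⟨i, (x i).1⟩

theorem prod_X [Fintype ι] (x : D.Idx) :
    (∏ i, X ⟨i, (x i).1⟩ : D.Poly) = monomial (D.ex x) 1 := by
  rw [ex, MvPolynomial.monomial_sum_one]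
  rfl

theorem coeff_form [Fintype ι] [DecidableEq ι] (u : D.Idx → ℂ) (x : D.Idx) :
    coeff (D.ex x) (D.form u) = u x := by
  classical
  rw [form, coeff_sum, Finset.sum_eq_single x]
  · rw [coeff_smul, prod_X, coeff_monomial, if_pos rfl, smul_eq_mul, mul_one]
  · intro y _ hy
    rw [coeff_smul, prod_X, coeff_monomial, if_neg, smul_zero]
    intro h
    exact hy (D.ex_injective h)
  · intro h; exact absurd (Finset.mem_univ _) h

theorem form_hom [Fintype ι] [DecidableEq ι] (u : D.Idx → ℂ) (i : ι) :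
    IsWeightedHomogeneous
      (fun s : Σ i, Fin (D.n i) => if s.1 = i then D.w s.1 s.2 else 0) (D.form u) 1 := by
  rw [form]
  refine (weightedHomogeneousSubmodule ℂ
    (fun s : Σ i, Fin (D.n i) => if s.1 = i then D.w s.1 s.2 else 0) 1).sum_mem (fun x _ => ?_)
  refine Submodule.smul_mem _ _ ?_
  rw [mem_weightedHomogeneousSubmodule]
  have h1 := IsWeightedHomogeneous.prod (w := fun s : Σ i, Fin (D.n i) =>
    if s.1 = i then D.w s.1 s.2 else 0) Finset.univ (fun j => (X ⟨j, (x j).1⟩ : D.Poly))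
    (fun j => if j = i then 1 else 0) (fun j _ => by
      have h2 := isWeightedHomogeneous_X ℂ (fun s : Σ i, Fin (D.n i) =>
        if s.1 = i then D.w s.1 s.2 else 0) ⟨j, (x j).1⟩
      simp only [(x j).2] at h2
      exact h2)
  rw [Finset.sum_ite_eq' Finset.univ i (fun _ => 1), if_pos (Finset.mem_univ _)] at h1
  exact h1

theorem comp_zero {σ : Type*} (w : σ → ℕ) {x : MvPolynomial σ ℂ} {δ : ℕ} (hδ : 2 ≤ δ)
    (hx : IsWeightedHomogeneous w x δ) (a : MvPolynomial σ ℂ) :
    weightedHomogeneousComponent w 1 (a * x) = 0 := by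
  induction a using MvPolynomial.monomial_add_induction_on with
  | C a =>
    have h2 : IsWeightedHomogeneous w (C a * x) (0 + δ) :=
      (isWeightedHomogeneous_C w a).mul hx
    exact h2.weightedHomogeneousComponent_ne 1 (by omega)
  | monomial_add s b q _ _ ih =>
    rw [add_mul, map_add, ih, add_zero]
    have h2 : IsWeightedHomogeneous w (monomial s b * x) (Finsupp.weight w s + δ) :=
      (isWeightedHomogeneous_monomial w s b rfl).mul hx
    exact h2.weightedHomogeneousComponent_ne 1 (by omega)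

theorem weight_ex [Fintype ι] [DecidableEq ι] (x : D.Idx) (i : ι) :
    Finsupp.weight (fun s : Σ i, Fin (D.n i) => if s.1 = i then D.w s.1 s.2 else 0) (D.ex x) =
      1 := by
  have h1 := D.form_hom (fun y => if y = x then 1 else 0) i
  have h2 : coeff (D.ex x) (D.form (fun y => if y = x then 1 else 0)) ≠ 0 := by
    rw [coeff_form, if_pos rfl]; exact one_ne_zero
  exact h1 h2

theorem rename_hom [DecidableEq ι] (i : ι) (j : Fin (D.c i)) :
    IsWeightedHomogeneous
      (fun s : Σ i, Fin (D.n i) => if s.1 = i then D.w s.1 s.2 else 0)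
      (rename (Sigma.mk i) (D.f i j)) (D.d i j) := by
  classical
  intro s hs
  obtain ⟨u, rfl, hu⟩ := coeff_rename_ne_zero _ _ _ hs
  rw [← D.hom i j hu, Finsupp.weight_apply, Finsupp.weight_apply,
    Finsupp.sum_mapDomain_index (by intro; simp) (by intro b m1 m2; exact add_smul _ _ _)]
  refine Finsupp.sum_congr (fun l _ => ?_)
  simp

theorem coeff_I [Fintype ι] [DecidableEq ι] {P : D.Poly} (hP : P ∈ D.I) (x : D.Idx) :
    coeff (D.ex x) P = 0 := by
  have h1 : ∀ P ∈ D.I, ∀ a, coeff (D.ex x) (a * P) = 0 := by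
    intro P hP
    refine Submodule.span_induction
      (p := fun P _ => ∀ a : D.Poly, coeff (D.ex x) (a * P) = 0) ?_ ?_ ?_ ?_ hP
    · rintro _ ⟨s, rfl⟩ a
      have h2 := comp_zero _ (D.two_le s.1 s.2) (D.rename_hom s.1 s.2) a
      have h3 := congrArg (coeff (D.ex x)) h2
      rw [coeff_weightedHomogeneousComponent, if_pos (D.weight_ex x s.1), coeff_zero] at h3
      exact h3
    · intro a; simp
    · intro x y _ _ hx hy a
      rw [mul_add, coeff_add, hx, hy, add_zero]
    · intro r x _ hx a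
      rw [smul_eq_mul, ← mul_assoc]
      exact hx _
  have := h1 P hP 1
  rwa [one_mul] at this

/-- the matrix of `g` on the variables of weight one of `Y i` -/
noncomputable def A (i : ι) (g : G) :
    Matrix {l // D.w i l = 1} {l // D.w i l = 1} ℂ := mat (D.w i) (D.φ i g)

theorem A_one (i : ι) : D.A i 1 = 1 := by
  classical
  ext a b
  rw [A, mat, map_one, AlgEquiv.one_apply, coeff_X, Matrix.one_apply]
  refine if_congr ?_ rfl rfl
  rw [Finsupp.single_left_inj one_ne_zero]
  constructor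
  · intro h; exact Subtype.ext h.symm
  · rintro rfl; rfl

theorem phi_X (i : ι) (g : G) (l : {l // D.w i l = 1}) :
    D.φ i g (X l.1) = ∑ l', D.A i g l' l • (X l'.1 : MvPolynomial (Fin (D.n i)) ℂ) := by
  have h1 := D.map_X i g l.1
  rw [l.2] at h1
  exact expand (D.w i) h1

theorem A_mul (i : ι) (g h : G) : D.A i (g * h) = D.A i g * D.A i h := by
  classical
  ext a b
  rw [Matrix.mul_apply]
  have h1 : D.A i (g * h) a b = coeff (Finsupp.single a.1 1) (D.φ i g (D.φ i h (X b.1))) := by
    rw [A, mat, map_mul]; rfl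
  rw [h1, phi_X, map_sum, coeff_sum]
  refine Finset.sum_congr rfl (fun l _ => ?_)
  rw [map_smul, coeff_smul, smul_eq_mul, mul_comm]
  rfl

/-- the matrix of `g` on the products of variables of weight one -/
noncomputable def K [Fintype ι] (g : G) : Matrix D.Idx D.Idx ℂ :=
  fun y x => ∏ i, D.A i g (y i) (x i)

theorem K_one [Fintype ι] [DecidableEq ι] : D.K 1 = 1 := by
  classical
  ext y x
  rw [K, Matrix.one_apply]
  simp only [A_one, Matrix.one_apply]
  by_cases h : y = x
  · subst h; simp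
  · rw [if_neg h]
    obtain ⟨i, hi⟩ := Function.ne_iff.mp h
    exact Finset.prod_eq_zero (Finset.mem_univ i) (if_neg hi)

theorem K_mul [Fintype ι] [DecidableEq ι] (g h : G) : D.K (g * h) = D.K g * D.K h := by
  classical
  ext y x
  rw [Matrix.mul_apply]
  simp only [K, A_mul, Matrix.mul_apply]
  rw [Finset.prod_univ_sum]
  rw [Fintype.piFinset_univ]
  refine Finset.sum_congr rfl (fun z _ => ?_)
  rw [Finset.prod_mul_distrib]

theorem K_trace [Fintype ι] [DecidableEq ι] (g : G) : (D.K g).trace = ∏ i, (D.A i g).trace := by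
  classical
  simp only [Matrix.trace, Matrix.diag_apply, K]
  rw [Finset.prod_univ_sum, Fintype.piFinset_univ]

theorem act_X (g : G) (i : ι) (l : Fin (D.n i)) :
    D.act g (X ⟨i, l⟩) = rename (Sigma.mk i) (D.φ i g (X l)) :=
  aeval_X _ _

theorem act_X' (g : G) (i : ι) (l : {l // D.w i l = 1}) :
    D.act g (X ⟨i, l.1⟩) = ∑ l', D.A i g l' l • (X ⟨i, l'.1⟩ : D.Poly) := by
  rw [act_X, phi_X, map_sum]
  refine Finset.sum_congr rfl (fun l _ => ?_)
  rw [map_smul, rename_X]

theorem act_form [Fintype ι] [DecidableEq ι] (g : G) (u : D.Idx → ℂ) :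
    D.act g (D.form u) = D.form ((D.K g).mulVec u) := by
  classical
  have h1 : ∀ x : D.Idx, D.act g (∏ i, X ⟨i, (x i).1⟩) =
      ∑ y : D.Idx, D.K g y x • (∏ i, X ⟨i, (y i).1⟩ : D.Poly) := by
    intro x
    rw [map_prod]
    rw [Finset.prod_congr rfl (fun i _ => D.act_X' g i (x i)), Finset.prod_univ_sum,
      Fintype.piFinset_univ]
    refine Finset.sum_congr rfl (fun y _ => ?_)
    rw [K, ← Finset.prod_smul]
  rw [form, form, map_sum]
  simp only [map_smul, h1, Finset.smul_sum]
  rw [Finset.sum_comm]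
  refine Finset.sum_congr rfl (fun y _ => ?_)
  rw [Matrix.mulVec, dotProduct, Finset.sum_smul]
  refine Finset.sum_congr rfl (fun x _ => ?_)
  rw [smul_smul, mul_comm]

/-- **Criterion.** If the sum of the products of the traces is positive, there is an invariant form
of degree one which is not in the ideal. -/
theorem exists_inv [Fintype ι] [DecidableEq ι] [Fintype G]
    (h : 0 < (∑ g, ∏ i, (D.A i g).trace).re) : ∃ P, D.Inv 1 P ∧ P ∉ D.I := by
  classical
  let ρ : Representation ℂ G (D.Idx → ℂ) :=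
    { toFun := fun g => Matrix.toLin' (D.K g)
      map_one' := by rw [K_one, Matrix.toLin'_one]; rfl
      map_mul' := by intro g h; rw [K_mul, Matrix.toLin'_mul]; rfl }
  have hρ : ∀ g u, ρ g u = (D.K g).mulVec u := fun g u => Matrix.toLin'_apply _ _
  have htr : ∀ g, LinearMap.trace ℂ (D.Idx → ℂ) (ρ g) = ∏ i, (D.A i g).trace := by
    intro g
    rw [← K_trace, LinearMap.trace_eq_matrix_trace ℂ (Pi.basisFun ℂ D.Idx)]
    congr 1
    exact LinearMap.toMatrix'_toLin' (D.K g)
  have hG : (Fintype.card G : ℂ) ≠ 0 := by exact_mod_cast Fintype.card_ne_zero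
  let _inst : Invertible (Fintype.card G : ℂ) := invertibleOfNonzero hG
  have h1 := (Representation.isProj_averageMap ρ).trace
  have h2 : LinearMap.trace ℂ (D.Idx → ℂ) ρ.averageMap =
      (Fintype.card G : ℂ)⁻¹ * ∑ g, LinearMap.trace ℂ (D.Idx → ℂ) (ρ g) := by
    rw [Representation.averageMap, GroupAlgebra.average]
    simp [map_sum]
  have h3 : 0 < Module.finrank ℂ ρ.invariants := by
    rw [Nat.pos_iff_ne_zero]
    intro h0
    rw [h2, h0, Nat.cast_zero] at h1
    have h4 : ∑ g, LinearMap.trace ℂ (D.Idx → ℂ) (ρ g) = 0 := by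
      rcases mul_eq_zero.mp h1 with h5 | h5
      · exact absurd h5 (inv_ne_zero hG)
      · exact h5
    simp only [htr] at h4
    rw [h4, Complex.zero_re] at h
    exact lt_irrefl _ h
  obtain ⟨u, hu⟩ := (Module.finrank_pos_iff_exists_ne_zero (R := ℂ)).mp h3
  have hu0 : (u : D.Idx → ℂ) ≠ 0 := fun h => hu (Subtype.ext h)
  refine ⟨D.form u, ⟨D.form_hom _, fun g => ?_⟩, ?_⟩
  · have h5 := u.2 g
    rw [hρ] at h5
    rw [act_form, h5, sub_self]
    exact Ideal.zero_mem _
  · intro hI
    apply hu0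
    funext x
    rw [← D.coeff_form u x]
    exact D.coeff_I hI x

end Datum

end Pool.Agent.Helper7.JQ
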