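import Mathlib
import Pool.Graph.R_seed8.H964R2.Core.Count
import Pool.Agent.Helper7.JQ.Stm

/-! Traces and the roots of the equations `lam k * r ^ m k = 1`. -/

namespace Pool.Agent.Helper7.JQ

open Finset Pool.Agent.H964R2.Core

/-- The roots of `c * r ^ m = 1`. -/
theorem rootset' (c : ℂ) (hc : c ≠ 0) (m : ℕ) (hm : 0 < m) :
    ∃ R : Finset ℂ, (∀ r, r ∈ R ↔ c * r ^ m = 1) ∧ R.card = m ∧
      ∀ a : ℕ, (m = 1 ∨ ¬ m ∣ a) → ∑ r ∈ R, (r⁻¹) ^ a = if m = 1 then c ^ a else 0 := by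
  classical
  obtain ⟨r0, hr0⟩ := IsAlgClosed.exists_pow_nat_eq (c⁻¹) hm
  have hr00 : r0 ≠ 0 := by
    rintro rfl
    rw [zero_pow hm.ne'] at hr0
    exact inv_ne_zero hc hr0.symm
  set ζ : ℂ := Complex.exp (2 * Real.pi * Complex.I / m) with hζdef
  have hζ : IsPrimitiveRoot ζ m := Complex.isPrimitiveRoot_exp m hm.ne'
  have hζ0 : ζ ≠ 0 := Complex.exp_ne_zero _
  have hinj : Set.InjOn (fun k : ℕ => r0 * ζ ^ k) (Finset.range m) := by
    intro a ha b hb hab
    have h1 : ζ ^ a = ζ ^ b := mul_left_cancel₀ hr00 hab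
    exact hζ.pow_inj (by simpa using ha) (by simpa using hb) h1
  refine ⟨(Finset.range m).image (fun k => r0 * ζ ^ k), ?_, ?_, ?_⟩
  · intro r
    rw [Finset.mem_image]
    constructor
    · rintro ⟨k, _, rfl⟩
      rw [mul_pow, hr0, ← pow_mul, mul_comm k m, pow_mul, hζ.pow_eq_one, one_pow, mul_one,
        mul_inv_cancel₀ hc]
    · intro h
      have h1 : (r / r0) ^ m = 1 := by
        rw [div_pow, hr0, div_inv_eq_mul, mul_comm]
        exact h
      have : NeZero m := ⟨hm.ne'⟩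
      obtain ⟨k, hk, hk2⟩ := hζ.eq_pow_of_pow_eq_one h1
      refine ⟨k, Finset.mem_range.mpr hk, ?_⟩
      rw [hk2]
      field_simp
  · rw [Finset.card_image_of_injOn hinj, Finset.card_range]
  · intro a ha
    rw [Finset.sum_image hinj]
    have h2 : ∀ k ∈ Finset.range m, ((r0 * ζ ^ k)⁻¹) ^ a = (r0⁻¹) ^ a * ((ζ⁻¹) ^ a) ^ k := by
      intro k _
      rw [mul_inv, mul_pow, ← pow_mul, ← inv_pow, ← pow_mul, mul_comm k a]
    rw [Finset.sum_congr rfl h2, ← Finset.mul_sum]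
    split_ifs with h1
    · subst h1
      simp only [Finset.range_one, Finset.sum_singleton, pow_zero, mul_one]
      rw [pow_one] at hr0
      rw [hr0, inv_inv]
    · have h3 : ¬ m ∣ a := by
        rcases ha with ha | ha
        · exact absurd ha h1
        · exact ha
      have h4 : (ζ⁻¹) ^ a ≠ 1 := by
        intro h5
        exact h3 ((hζ.inv.pow_eq_one_iff_dvd a).mp h5)
      have h5 : ((ζ⁻¹) ^ a) ^ m = 1 := by
        rw [← pow_mul, mul_comm, pow_mul, hζ.inv.pow_eq_one, one_pow]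
      have h6 := mul_neg_geom_sum ((ζ⁻¹) ^ a) m
      rw [h5, sub_self] at h6
      rcases mul_eq_zero.mp h6 with h7 | h7
      · exact absurd (sub_eq_zero.mp h7).symm h4
      · rw [h7, mul_zero]

theorem decomp {K L : Type} [Fintype K] [Fintype L] (lam : K → ℂ) (m : K → ℕ)
    (mu : L → ℂ) (e : L → ℕ) {N M : ℕ} (hM : 0 < M) (hlam : ∀ k, lam k ^ N = 1)
    (hmu : ∀ l, mu l ^ N = 1) (hm : ∀ k, 0 < m k ∧ N * m k ∣ M) (he : ∀ l, 2 ≤ e l ∧ N * e l ∣ M) :
    ∃ F : Finset ℂ, (∀ r ∈ F, r ^ M = 1) ∧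
      (∀ r, 0 < (univ.filter (fun k => lam k * r ^ m k = 1)).card → r ∈ F) ∧
      (∑ k, (m k : ℤ) = ∑ r ∈ F, ((univ.filter (fun k => lam k * r ^ m k = 1)).card : ℤ)) ∧
      (∑ l, (e l : ℤ) = ∑ r ∈ F, ((univ.filter (fun l => mu l * r ^ e l = 1)).card : ℤ)) ∧
      (∀ a : ℕ, Nat.Coprime a M → ∑ k ∈ univ.filter (fun k => m k = 1), lam k ^ a =
        ∑ r ∈ F, ((univ.filter (fun k => lam k * r ^ m k = 1)).card : ℂ) * (r⁻¹) ^ a) ∧
      (∀ a : ℕ, Nat.Coprime a M →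
        ∑ r ∈ F, ((univ.filter (fun l => mu l * r ^ e l = 1)).card : ℂ) * (r⁻¹) ^ a = 0) := by
  classical
  have hN : ∀ k, N ∣ M := fun k => Dvd.dvd.trans (Dvd.intro _ rfl) (hm k).2
  have hNL : ∀ l, N ∣ M := fun l => Dvd.dvd.trans (Dvd.intro _ rfl) (he l).2
  have hN0 : ∀ k : K, N ≠ 0 := fun k h => by
    have h1 := hN k
    rw [h, zero_dvd_iff] at h1
    omega
  have hN0L : ∀ k : L, N ≠ 0 := fun k h => by
    have h1 := hNL k
    rw [h, zero_dvd_iff] at h1
    omega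
  have hlam0 : ∀ k, lam k ≠ 0 := fun k h0 => by
    have := hlam k; rw [h0, zero_pow (hN0 k)] at this; exact zero_ne_one this
  have hmu0 : ∀ k, mu k ≠ 0 := fun k h0 => by
    have := hmu k; rw [h0, zero_pow (hN0L k)] at this; exact zero_ne_one this
  choose R hR1 hR2 hR3 using fun k => rootset' (lam k) (hlam0 k) (m k) (hm k).1
  choose S hS1 hS2 hS3 using fun l => rootset' (mu l) (hmu0 l) (e l) (by have := (he l).1; omega)
  set F : Finset ℂ := (univ.biUnion R) ∪ (univ.biUnion S) with hF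
  have hRF : ∀ k, R k ⊆ F := fun k r hr => by
    rw [hF, mem_union, mem_biUnion]; exact Or.inl ⟨k, mem_univ _, hr⟩
  have hSF : ∀ k, S k ⊆ F := fun k r hr => by
    rw [hF, mem_union, mem_biUnion, mem_biUnion]; exact Or.inr ⟨k, mem_univ _, hr⟩
  have hroot : ∀ (c r : ℂ) (j : ℕ), c ^ N = 1 → N * j ∣ M → c * r ^ j = 1 → r ^ M = 1 := by
    intro c r j hc hj hcr
    obtain ⟨q, hq⟩ := hj
    have h1 : (c * r ^ j) ^ N = 1 := by rw [hcr, one_pow]
    rw [mul_pow, hc, one_mul, ← pow_mul, mul_comm j N] at h1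
    rw [hq, pow_mul, h1, one_pow]
  have hFn : ∀ r ∈ F, r ^ M = 1 := by
    intro r hr
    rw [hF, mem_union, mem_biUnion, mem_biUnion] at hr
    rcases hr with ⟨k, _, hk⟩ | ⟨k, _, hk⟩
    · exact hroot _ _ _ (hlam k) (hm k).2 ((hR1 k r).mp hk)
    · exact hroot _ _ _ (hmu k) (he k).2 ((hS1 k r).mp hk)
  have hnd : ∀ (j a : ℕ), N * j ∣ M → Nat.Coprime a M → j ≠ 1 → ¬ j ∣ a := by
    intro j a hj ha h1 h2
    have h3 : j ∣ M := Dvd.dvd.trans (Dvd.intro_left _ rfl) hj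
    have h4 : j ∣ Nat.gcd a M := Nat.dvd_gcd h2 h3
    rw [ha, Nat.dvd_one] at h4
    exact h1 h4
  refine ⟨F, hFn, ?_, ?_, ?_, ?_, ?_⟩
  · intro r hr
    obtain ⟨k, hk⟩ := Finset.card_pos.mp hr
    exact hRF k ((hR1 k r).mpr (Finset.mem_filter.mp hk).2)
  · have := dsum F R (fun k r => lam k * r ^ m k = 1) hR1 hRF (fun _ => 1)
    simp only [mul_one] at this
    have h2 : (∑ k, (m k : ℂ)) = ∑ r ∈ F, ((univ.filter (fun k => lam k * r ^ m k = 1)).card : ℂ) := by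
      rw [← this]
      refine Finset.sum_congr rfl (fun k _ => ?_)
      rw [Finset.sum_const, hR2 k]; simp
    exact_mod_cast h2
  · have := dsum F S (fun k r => mu k * r ^ e k = 1) hS1 hSF (fun _ => 1)
    simp only [mul_one] at this
    have h2 : (∑ k, (e k : ℂ)) = ∑ r ∈ F, ((univ.filter (fun k => mu k * r ^ e k = 1)).card : ℂ) := by
      rw [← this]
      refine Finset.sum_congr rfl (fun k _ => ?_)
      rw [Finset.sum_const, hS2 k]; simp
    exact_mod_cast h2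
  · intro a ha
    rw [Finset.sum_filter, ← dsum F R (fun k r => lam k * r ^ m k = 1) hR1 hRF (fun r => (r⁻¹) ^ a)]
    refine Finset.sum_congr rfl (fun k _ => (hR3 k a ?_).symm)
    by_cases h1 : m k = 1
    · exact Or.inl h1
    · exact Or.inr (hnd _ _ (hm k).2 ha h1)
  · intro a ha
    rw [← dsum F S (fun k r => mu k * r ^ e k = 1) hS1 hSF (fun r => (r⁻¹) ^ a)]
    refine Finset.sum_eq_zero (fun k _ => ?_)
    have h1 : e k ≠ 1 := by have := (he k).1; omega
    rw [hS3 k a (Or.inr (hnd _ _ (he k).2 ha h1)), if_neg h1]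

theorem s_NUM0 : S_NUM0 := by
  intro K L _ _ lam m mu e N M hM hlam hmu hm he hle hsum a ha
  classical
  obtain ⟨F, hF1, hF2, h1, h2, h3, h4⟩ := decomp lam m mu e hM hlam hmu hm he
  rw [h3 a ha, ← h4 a ha]
  have h5 : ∀ r ∈ F, ((univ.filter (fun k => lam k * r ^ m k = 1)).card : ℤ) =
      (univ.filter (fun l => mu l * r ^ e l = 1)).card := by
    refine (Finset.sum_eq_sum_iff_of_le (fun r _ => by exact_mod_cast hle r)).mp ?_
    rw [← h1, ← h2]
    apply le_antisymm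
    · rw [h1, h2]
      exact Finset.sum_le_sum (fun r _ => by exact_mod_cast hle r)
    · exact_mod_cast hsum
  refine Finset.sum_congr rfl (fun r hr => ?_)
  have h6 : ((univ.filter (fun k => lam k * r ^ m k = 1)).card : ℂ) =
      (univ.filter (fun l => mu l * r ^ e l = 1)).card := by exact_mod_cast h5 r hr
  rw [h6]

theorem s_ZFORM : S_ZFORM := by
  intro K L _ _ lam m mu e N M hM hlam hmu hm he t ht hmax
  classical
  obtain ⟨F0, hF1, hF2, h1, h2, h3, h4⟩ := decomp lam m mu e hM hlam hmu hm he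
  have htF : t ∈ F0 := hF2 t (lt_of_le_of_lt (Nat.zero_le _) ht)
  have htM := hF1 t htF
  have h0 : ∀ r ∈ F0, r ≠ 0 := by
    rintro r hr rfl
    have := hF1 0 hr
    rw [zero_pow hM.ne'] at this
    exact zero_ne_one this
  have ht0 := h0 t htF
  set α : ℂ → ℕ := fun r => (univ.filter (fun k => lam k * r ^ m k = 1)).card with hα
  set β : ℂ → ℕ := fun r => (univ.filter (fun l => mu l * r ^ e l = 1)).card with hβ
  change ∑ k, (m k : ℤ) = ∑ r ∈ F0, (α r : ℤ) at h1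
  change ∑ l, (e l : ℤ) = ∑ r ∈ F0, (β r : ℤ) at h2
  change ∀ a : ℕ, Nat.Coprime a M → ∑ k ∈ univ.filter (fun k => m k = 1), lam k ^ a =
        ∑ r ∈ F0, (α r : ℂ) * (r⁻¹) ^ a at h3
  change ∀ a : ℕ, Nat.Coprime a M → ∑ r ∈ F0, (β r : ℂ) * (r⁻¹) ^ a = 0 at h4
  change ∀ r, r ≠ t → α r ≤ β r at hmax
  have hu : ∀ r ∈ F0.erase t, ((β r - α r : ℕ) : ℤ) = β r - α r := fun r hr =>
    Nat.cast_sub (hmax r (Finset.ne_of_mem_erase hr))
  have huC : ∀ r ∈ F0.erase t, ((β r - α r : ℕ) : ℂ) = β r - α r := fun r hr =>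
    Nat.cast_sub (hmax r (Finset.ne_of_mem_erase hr))
  have hA : (α t : ℤ) - β t = ∑ k, (m k : ℤ) - ∑ l, (e l : ℤ) +
      ∑ r ∈ F0.erase t, ((β r - α r : ℕ) : ℤ) := by
    rw [Finset.sum_congr rfl hu, h1, h2, Finset.sum_sub_distrib,
      ← Finset.add_sum_erase F0 (fun r => (α r : ℤ)) htF,
      ← Finset.add_sum_erase F0 (fun r => (β r : ℤ)) htF]
    ring
  refine ⟨F0.erase t, fun r => β r - α r, ?_, hA, ?_, ?_⟩
  · intro r hr
    have hr0 := h0 r (Finset.mem_of_mem_erase hr)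
    refine ⟨?_, ?_⟩
    · rw [div_pow, htM, hF1 r (Finset.mem_of_mem_erase hr), div_one]
    · intro h
      rw [div_eq_one_iff_eq hr0] at h
      exact Finset.ne_of_mem_erase hr h.symm
  · intro a ha
    have hAC : (α t : ℂ) - β t = ∑ k, (m k : ℂ) - ∑ l, (e l : ℂ) +
      ∑ r ∈ F0.erase t, ((β r - α r : ℕ) : ℂ) := by exact_mod_cast hA
    have h5 : t ^ a * ∑ k ∈ univ.filter (fun k => m k = 1), lam k ^ a =
        ∑ r ∈ F0, ((α r : ℂ) - β r) * (t / r) ^ a := by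
      rw [← sub_zero (∑ k ∈ univ.filter (fun k => m k = 1), lam k ^ a), h3 a ha, ← h4 a ha,
        ← Finset.sum_sub_distrib, Finset.mul_sum]
      refine Finset.sum_congr rfl (fun r _ => ?_)
      rw [div_pow, inv_pow]
      ring
    rw [h5, ← Finset.add_sum_erase F0 _ htF, div_self ht0, one_pow, mul_one, hAC, add_assoc,
      ← Finset.sum_add_distrib]
    congr 1
    refine Finset.sum_congr rfl (fun r hr => ?_)
    rw [huC r hr]
    ring
  · have hc1 : Nat.Coprime 1 M := Nat.coprime_one_left M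
    have h5 := h3 1 hc1
    simp only [pow_one] at h5
    have h6 : t * ∑ k ∈ univ.filter (fun k => m k = 1), lam k =
        α t + ∑ r ∈ F0.erase t, (α r : ℂ) * (t / r) := by
      rw [h5, ← Finset.add_sum_erase F0 _ htF, mul_add, Finset.mul_sum]
      congr 1
      · field_simp
      · refine Finset.sum_congr rfl (fun r _ => ?_)
        rw [div_eq_mul_inv]
        ring
    have h7 : (∑ k, (m k : ℝ)) = α t + ∑ r ∈ F0.erase t, (α r : ℝ) := by
      have h8 : (∑ k, (m k : ℝ)) = ∑ r ∈ F0, (α r : ℝ) := by exact_mod_cast h1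
      rw [h8, ← Finset.add_sum_erase F0 _ htF]
    change ‖t * ∑ k ∈ univ.filter (fun k => m k = 1), lam k - ((α t : ℂ) - β t)‖ ≤
      ∑ k, (m k : ℝ) - ((α t : ℝ) - β t)
    rw [h6, h7]
    have h9 : ‖(α t : ℂ) + ∑ r ∈ F0.erase t, (α r : ℂ) * (t / r) - ((α t : ℂ) - β t)‖ ≤
        ‖∑ r ∈ F0.erase t, (α r : ℂ) * (t / r)‖ + ‖(β t : ℂ)‖ := by
      have h10 : (α t : ℂ) + ∑ r ∈ F0.erase t, (α r : ℂ) * (t / r) - ((α t : ℂ) - β t) =
          ∑ r ∈ F0.erase t, (α r : ℂ) * (t / r) + β t := by ring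
      rw [h10]
      exact norm_add_le _ _
    refine h9.trans ?_
    have h11 : ‖∑ r ∈ F0.erase t, (α r : ℂ) * (t / r)‖ ≤ ∑ r ∈ F0.erase t, (α r : ℝ) := by
      refine (norm_sum_le _ _).trans (Finset.sum_le_sum (fun r hr => ?_))
      have h12 : ‖t / r‖ = 1 := by
        have h13 : (t / r) ^ M = 1 := by
          rw [div_pow, htM, hF1 r (Finset.mem_of_mem_erase hr), div_one]
        have h14 := congrArg norm h13
        rw [norm_pow, norm_one] at h14
        exact (pow_eq_one_iff_of_nonneg (norm_nonneg _) hM.ne').mp h14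
      rw [norm_mul, h12, mul_one, Complex.norm_natCast]
    rw [Complex.norm_natCast]
    linarith

end Pool.Agent.Helper7.JQ
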