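import Mathlib
import Pool.Agent.Helper7.JQ.Big
import Pool.Agent.Helper7.JQ.Num
import Pool.Agent.Helper7.JQ.Arg

/-! The traces of the elements of the group. -/

namespace Pool.Agent.Helper7.JQ

open MvPolynomial Pool.Agent.H964R2.Core

namespace Datum

variable {ι : Type} {G : Type} [Group G] (D : Datum ι G)

/-- the product of the order of the group, of the weights and of the degrees -/
noncomputable def M [Fintype ι] : ℕ := Nat.card G * (∏ i, ∏ l, D.w i l) * ∏ i, ∏ j, D.d i j

theorem M_pos [Fintype ι] [Finite G] : 0 < D.M := by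
  refine Nat.mul_pos (Nat.mul_pos Nat.card_pos ?_) ?_
  · exact Finset.prod_pos (fun i _ => Finset.prod_pos (fun l _ => D.w_pos i l))
  · exact Finset.prod_pos (fun i _ => Finset.prod_pos (fun j _ => by have := D.two_le i j; omega))

theorem w_dvd [Fintype ι] (i : ι) (l : Fin (D.n i)) : Nat.card G * D.w i l ∣ D.M := by
  refine Dvd.dvd.trans ?_ (Dvd.intro _ rfl)
  refine mul_dvd_mul_left _ ?_
  exact (Finset.dvd_prod_of_mem (D.w i) (Finset.mem_univ l)).trans
    (Finset.dvd_prod_of_mem (fun i => ∏ l, D.w i l) (Finset.mem_univ i))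

theorem d_dvd [Fintype ι] (i : ι) (j : Fin (D.c i)) : Nat.card G * D.d i j ∣ D.M := by
  rw [M, mul_assoc]
  refine mul_dvd_mul_left _ ?_
  refine Dvd.dvd.trans ?_ (Dvd.intro_left _ rfl)
  exact (Finset.dvd_prod_of_mem (D.d i) (Finset.mem_univ j)).trans
    (Finset.dvd_prod_of_mem (fun i => ∏ j, D.d i j) (Finset.mem_univ i))

theorem dichotomy [Fintype ι] [DecidableEq ι] [Finite G] (hS : D.SectionRing)
    (hE : ∀ i, D.E i ≤ D.W i) (g : G) :
    (∃ i, D.W i ≤ D.E i ∧ (g = 1 → D.n i ≤ D.c i) ∧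
      ∀ a : ℕ, Nat.Coprime a D.M → (D.A i (g ^ a)).trace = 0) ∨
    ∃ (t : ι → ℂ) (R : ι → ℕ) (F : ι → Finset ℂ) (u : ι → ℂ → ℕ), ∏ i, t i = 1 ∧ ∀ i,
      D.W i ≤ D.E i + R i ∧ R i ≤ D.W i ∧
      0 < R i + ∑ r ∈ F i, u i r ∧ (∀ r ∈ F i, (t i / r) ^ D.M = 1 ∧ t i / r ≠ 1) ∧
      (∀ a : ℕ, Nat.Coprime a D.M → (t i) ^ a * (D.A i (g ^ a)).trace =
        R i + ∑ r ∈ F i, (u i r : ℂ) * (1 - (t i / r) ^ a)) ∧
      ‖t i * (D.A i g).trace - (R i + ∑ r ∈ F i, (u i r : ℂ))‖ ≤
        D.W i - (R i + ∑ r ∈ F i, (u i r : ℝ)) := by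
  classical
  have hN : 0 < Nat.card G := Nat.card_pos
  have hM := D.M_pos
  have hsp := fun i => spec (D.w i) (D.w_pos i) (D.f i) (D.d i) (D.two_le i) (D.hom i) (D.φ i g)
    hN (by rw [← map_pow, pow_card_eq_one', map_one]) (D.map_X i g) (D.map_f i g)
  choose K L iK iL lam m mu e h1 h2 h3 h4 h5 h6 h7 h8 h9 h10 h11 using hsp
  have hm : ∀ i k, 0 < m i k ∧ Nat.card G * m i k ∣ D.M := by
    intro i k
    obtain ⟨l, hl⟩ := h3 i k
    rw [← hl]
    exact ⟨D.w_pos i l, D.w_dvd i l⟩
  have he : ∀ i l, 2 ≤ e i l ∧ Nat.card G * e i l ∣ D.M := by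
    intro i k
    obtain ⟨j, hj⟩ := h4 i k
    rw [← hj]
    exact ⟨D.two_le i j, D.d_dvd i j⟩
  have hA : ∀ i a, (D.A i (g ^ a)).trace =
      ∑ k ∈ Finset.univ.filter (fun k => m i k = 1), lam i k ^ a := by
    intro i a
    rw [A, map_pow]
    exact h11 i a
  by_cases hex : ∀ i, ∃ t : ℂ, (Finset.univ.filter (fun l => mu i l * t ^ e i l = 1)).card <
        (Finset.univ.filter (fun k => lam i k * t ^ m i k = 1)).card
  · right
    choose t ht using hex
    have hprod : ∀ t : ι → ℂ, (∀ i, (Finset.univ.filter (fun l => mu i l * t i ^ e i l = 1)).card <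
        (Finset.univ.filter (fun k => lam i k * t i ^ m i k = 1)).card) → ∏ i, t i = 1 := by
      intro t ht
      choose v hv0 hv hvt using fun i => h10 i (t i) (ht i)
      exact D.prod_eq_one hS g t v hv0 hv hvt
    have ht1 := hprod t ht
    have hmax : ∀ i, ∀ r : ℂ, r ≠ t i → (Finset.univ.filter (fun k => lam i k * r ^ m i k = 1)).card ≤
        (Finset.univ.filter (fun l => mu i l * r ^ e i l = 1)).card := by
      intro i r hr
      by_contra hlt
      push Not at hlt
      have h12 := hprod (Function.update t i r) (by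
        intro j
        by_cases hj : j = i
        · subst hj
          rw [Function.update_self]
          exact hlt
        · rw [Function.update_of_ne hj]
          exact ht j)
      rw [Finset.prod_update_of_mem (Finset.mem_univ i)] at h12
      rw [← Finset.mul_prod_erase Finset.univ t (Finset.mem_univ i)] at ht1
      rw [← Finset.erase_eq] at h12
      have h13 : ∏ j ∈ Finset.univ.erase i, t j ≠ 0 := by
        intro h0
        rw [h0, mul_zero] at ht1
        exact zero_ne_one ht1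
      exact hr (mul_right_cancel₀ h13 (h12.trans ht1.symm))
    have hz := fun i => s_ZFORM (K i) (L i) (iK i) (iL i) (lam i) (m i) (mu i) (e i) (Nat.card G) D.M
      hM (h1 i) (h2 i) (hm i) (he i) (t i) (ht i) (hmax i)
    choose F u hz1 hz2 hz3 hz4 using hz
    have hR : ∀ i, ((D.W i - ∑ l, e i l : ℕ) : ℤ) = ∑ k, (m i k : ℤ) - ∑ l, (e i l : ℤ) := by
      intro i
      rw [Nat.cast_sub ((h6 i).trans (hE i))]
      rw [W, ← h5 i]
      push_cast
      rfl
    have hRC : ∀ i, ((D.W i - ∑ l, e i l : ℕ) : ℂ) = ∑ k, (m i k : ℂ) - ∑ l, (e i l : ℂ) := by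
      intro i
      exact_mod_cast congrArg (Int.cast : ℤ → ℂ) (hR i)
    have hAZ : ∀ i, ((Finset.univ.filter (fun k => lam i k * t i ^ m i k = 1)).card : ℤ) -
            (Finset.univ.filter (fun l => mu i l * t i ^ e i l = 1)).card =
          (D.W i - ∑ l, e i l : ℕ) + ∑ r ∈ F i, (u i r : ℤ) := by
      intro i
      rw [hz2 i, hR i]
    refine ⟨t, fun i => D.W i - ∑ l, e i l, F, u, ht1, fun i => ⟨?_, ?_, ?_, hz1 i, ?_, ?_⟩⟩
    · have := h6 i
      change ∑ l, e i l ≤ D.E i at this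
      have := hE i
      change D.W i ≤ D.E i + (D.W i - ∑ l, e i l)
      omega
    · exact Nat.sub_le _ _
    · have h12 := hAZ i
      have h13 := ht i
      have h14 : (0 : ℤ) < ((D.W i - ∑ l, e i l : ℕ) : ℤ) + ∑ r ∈ F i, (u i r : ℤ) := by
        rw [← h12]; omega
      exact_mod_cast h14
    · intro a ha
      rw [hA i a, hz3 i a ha, hRC i]
    · have h12 := hz4 i
      have h13 : (((Finset.univ.filter (fun k => lam i k * t i ^ m i k = 1)).card : ℂ) -
          (Finset.univ.filter (fun l => mu i l * t i ^ e i l = 1)).card) =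
          ((D.W i - ∑ l, e i l : ℕ) : ℂ) + ∑ r ∈ F i, (u i r : ℂ) := by
        exact_mod_cast congrArg (Int.cast : ℤ → ℂ) (hAZ i)
      have h14 : (((Finset.univ.filter (fun k => lam i k * t i ^ m i k = 1)).card : ℝ) -
          (Finset.univ.filter (fun l => mu i l * t i ^ e i l = 1)).card) =
          ((D.W i - ∑ l, e i l : ℕ) : ℝ) + ∑ r ∈ F i, (u i r : ℝ) := by
        exact_mod_cast congrArg (Int.cast : ℤ → ℝ) (hAZ i)
      have h15 : ∑ k, (m i k : ℝ) = (D.W i : ℝ) := by
        rw [W, ← h5 i]; push_cast; rfl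
      have h16 : (D.A i g).trace = ∑ k ∈ Finset.univ.filter (fun k => m i k = 1), lam i k := by
        have := hA i 1
        simp only [pow_one] at this
        exact this
      rw [h13, h14, h15] at h12
      rw [h16]
      exact h12
  · left
    push Not at hex
    obtain ⟨i, hi⟩ := hex
    have hsum : ∑ k, m i k ≤ ∑ l, e i l := by
      obtain ⟨F0, hF1, hF2, g1, g2, g3, g4⟩ := decomp (lam i) (m i) (mu i) (e i) hM (h1 i) (h2 i)
        (hm i) (he i)
      have : (∑ k, (m i k : ℤ)) ≤ ∑ l, (e i l : ℤ) := by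
        rw [g1, g2]
        exact Finset.sum_le_sum (fun r _ => by exact_mod_cast hi r)
      exact_mod_cast this
    refine ⟨i, ?_, ?_, ?_⟩
    · have h12 := h5 i
      have h13 := h6 i
      change _ = D.W i at h12
      change _ ≤ D.E i at h13
      omega
    · intro hg
      obtain ⟨h12, h13⟩ := h9 i (by rw [hg, map_one])
      have h14 := hi 1
      have h15 : (Finset.univ.filter (fun k => lam i k * (1 : ℂ) ^ m i k = 1)) = Finset.univ := by
        rw [Finset.filter_eq_self]
        intro k _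
        rw [h12 k, one_pow, one_mul]
      rw [h15, Finset.card_univ, h7 i] at h14
      exact h14.trans ((Finset.card_filter_le _ _).trans (by rw [Finset.card_univ]; exact h8 i))
    · intro a ha
      rw [hA i a]
      refine s_NUM0 (K i) (L i) (iK i) (iL i) (lam i) (m i) (mu i) (e i) (Nat.card G) D.M
        hM (h1 i) (h2 i) (hm i) (he i) hi ?_ a ha
      have h12 := h5 i
      have h13 := h6 i
      have h14 := hE i
      change _ = D.W i at h12
      change _ ≤ D.E i at h13
      omega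

theorem trace_one (i : ι) : (D.A i 1).trace = (Fintype.card {l : Fin (D.n i) // D.w i l = 1} : ℂ) := by
  rw [A_one, Matrix.trace_one]

/-- The real parts of the numbers `R + ∑ u r (1 - s r)` are positive. -/
theorem re_pos {F : Finset ℂ} {u : ℂ → ℕ} {R M : ℕ} {t : ℂ} (hM : 0 < M)
    (h0 : 0 < R + ∑ r ∈ F, u r) (h : ∀ r ∈ F, (t / r) ^ M = 1 ∧ t / r ≠ 1) :
    0 < ((R : ℂ) + ∑ r ∈ F, (u r : ℂ) * (1 - (t / r) ^ 1)).re := by
  have h1 : ∀ r ∈ F, 0 < 1 - (t / r).re := by
    intro r hr
    obtain ⟨h2, h3⟩ := h r hr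
    have h4 : ‖t / r‖ = 1 := by
      have h5 := congrArg norm h2
      rw [norm_pow, norm_one] at h5
      exact (pow_eq_one_iff_of_nonneg (norm_nonneg _) hM.ne').mp h5
    have h5 : (t / r).re ≤ 1 := h4 ▸ Complex.re_le_norm _
    rcases h5.lt_or_eq with h6 | h6
    · linarith
    · exfalso
      apply h3
      have h7 : (t / r).im = 0 := by
        have h8 : (t / r).re ^ 2 + (t / r).im ^ 2 = 1 := by
          have h9 : ‖t / r‖ ^ 2 = 1 := by rw [h4]; norm_num
          rw [Complex.sq_norm, Complex.normSq_apply] at h9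
          linarith
        rw [h6] at h8
        have : (t / r).im ^ 2 = 0 := by linarith
        exact pow_eq_zero_iff (two_ne_zero) |>.mp this
      exact Complex.ext (by rw [h6]; rfl) (by rw [h7]; rfl)
  rw [Complex.add_re, Complex.natCast_re, Complex.re_sum]
  have h2 : ∀ r ∈ F, ((u r : ℂ) * (1 - (t / r) ^ 1)).re = u r * (1 - (t / r).re) := by
    intro r _
    rw [pow_one]
    simp [Complex.mul_re]
  rw [Finset.sum_congr rfl h2]
  rcases Nat.eq_zero_or_pos R with hR | hR
  · subst hR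
    rw [zero_add] at h0
    have h3 : ∃ r ∈ F, 0 < u r := by
      by_contra hcon
      push Not at hcon
      have : ∑ r ∈ F, u r = 0 := Finset.sum_eq_zero (fun r hr => Nat.le_zero.mp (hcon r hr))
      omega
    obtain ⟨r, hr, hur⟩ := h3
    rw [Nat.cast_zero, zero_add]
    refine Finset.sum_pos' (fun r hr => mul_nonneg (Nat.cast_nonneg _) (h1 r hr).le) ⟨r, hr, ?_⟩
    exact mul_pos (by exact_mod_cast hur) (h1 r hr)
  · have h3 : 0 ≤ ∑ r ∈ F, (u r : ℝ) * (1 - (t / r).re) :=
      Finset.sum_nonneg (fun r hr => mul_nonneg (Nat.cast_nonneg _) (h1 r hr).le)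
    have h4 : (0 : ℝ) < R := by exact_mod_cast hR
    linarith

/-- The product of the traces of the neutral element is positive. -/
theorem one_pos [Fintype ι] [DecidableEq ι] [Finite G] (hS : D.SectionRing)
    (h : ∀ i, D.E i < D.W i ∨ (D.E i = D.W i ∧ D.c i < D.n i)) (i : ι) :
    0 < Fintype.card {l : Fin (D.n i) // D.w i l = 1} := by
  have hE : ∀ i, D.E i ≤ D.W i := fun i => by rcases h i with h1 | h1 <;> omega
  rcases D.dichotomy hS hE 1 with ⟨j, h1, h2, _⟩ | ⟨t, R, F, u, _, h1⟩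
  · have h3 := h2 rfl
    rcases h j with h4 | h4 <;> omega
  · obtain ⟨_, _, h3, h4, h5, _⟩ := h1 i
    have h6 := re_pos D.M_pos h3 h4
    rw [← h5 1 (Nat.coprime_one_left _), one_pow, trace_one] at h6
    rw [Nat.pos_iff_ne_zero]
    intro h0
    rw [h0, Nat.cast_zero, mul_zero, Complex.zero_re] at h6
    exact lt_irrefl _ h6

end Datum

end Pool.Agent.Helper7.JQ
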