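import Mathlib
import Pool.Agent.Helper7.JQ.Main
import Pool.Agent.Helper7.JQ.Stm

/-! Averages over the powers of the elements of the group. -/

namespace Pool.Agent.Helper7.JQ

open MvPolynomial

/-- Positivity of the sums over `a` prime to `M` of the products of at most `k` numbers `1 - s ^ a`. -/
def Pos (M k : ℕ) : Prop := ∀ (J : Finset ℕ) (s : ℕ → ℂ), J.card ≤ k → (∀ j ∈ J, s j ^ M = 1 ∧ s j ≠ 1) →
  0 ≤ (∑ a ∈ cop M, ∏ j ∈ J, (1 - s j ^ a)).re

theorem re_one_sub_nonneg {M : ℕ} (hM : 0 < M) {s : ℂ} (hs : s ^ M = 1) (a : ℕ) :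
    0 ≤ (1 - s ^ a).re := by
  have h1 : ‖s ^ a‖ = 1 := by
    have h2 := congrArg norm hs
    rw [norm_pow, norm_one] at h2
    rw [norm_pow, (pow_eq_one_iff_of_nonneg (norm_nonneg _) hM.ne').mp h2, one_pow]
  have h3 := Complex.re_le_norm (s ^ a)
  rw [h1] at h3
  simp only [Complex.sub_re, Complex.one_re]
  linarith

theorem pos_of_two {M : ℕ} (hM : 0 < M)
    (h2 : ∀ (s t : ℂ), s ^ M = 1 → t ^ M = 1 → s ≠ 1 → t ≠ 1 →
      0 ≤ (∑ a ∈ cop M, (1 - s ^ a) * (1 - t ^ a)).re) : Pos M 2 := by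
  classical
  intro J s hJ hs
  rcases Nat.lt_or_ge J.card 1 with h | h
  · have h0 : J = ∅ := Finset.card_eq_zero.mp (by omega)
    subst h0
    simp only [Finset.prod_empty, Finset.sum_const, nsmul_eq_mul, mul_one, Complex.natCast_re]
    positivity
  rcases Nat.lt_or_ge J.card 2 with h' | h'
  · obtain ⟨j, rfl⟩ := Finset.card_eq_one.mp (by omega : J.card = 1)
    simp only [Finset.prod_singleton]
    rw [Complex.re_sum]
    exact Finset.sum_nonneg (fun a _ => re_one_sub_nonneg hM (hs j (Finset.mem_singleton_self j)).1 a)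
  · obtain ⟨i, j, hij, rfl⟩ := Finset.card_eq_two.mp (by omega : J.card = 2)
    have h3 : ∀ a, ∏ l ∈ ({i, j} : Finset ℕ), (1 - s l ^ a) = (1 - s i ^ a) * (1 - s j ^ a) :=
      fun a => Finset.prod_pair hij
    simp only [h3]
    have hi := hs i (by simp)
    have hj := hs j (by simp)
    exact h2 _ _ hi.1 hj.1 hi.2 hj.2

theorem pos_of_three {M : ℕ} (hP : Pos M 2)
    (h3 : ∀ (s t u : ℂ), s ^ M = 1 → t ^ M = 1 → u ^ M = 1 → s ≠ 1 → t ≠ 1 → u ≠ 1 →
      0 ≤ (∑ a ∈ cop M, (1 - s ^ a) * (1 - t ^ a) * (1 - u ^ a)).re) : Pos M 3 := by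
  classical
  intro J s hJ hs
  rcases Nat.lt_or_ge J.card 3 with h | h
  · exact hP J s (by omega) hs
  · obtain ⟨i, j, k, hij, hik, hjk, rfl⟩ := Finset.card_eq_three.mp (by omega : J.card = 3)
    have h4 : ∀ a, ∏ l ∈ ({i, j, k} : Finset ℕ), (1 - s l ^ a) =
        (1 - s i ^ a) * (1 - s j ^ a) * (1 - s k ^ a) := by
      intro a
      rw [Finset.prod_insert (by simp [hij, hik]), Finset.prod_pair hjk, mul_assoc]
    simp only [h4]
    have hi := hs i (by simp)
    have hj := hs j (by simp)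
    have hk := hs k (by simp)
    exact h3 _ _ _ hi.1 hj.1 hk.1 hi.2 hj.2 hk.2

/-- The sum of the products of the numbers `R + ∑ u r (1 - (t / r) ^ a)`. -/
theorem sum_prod_nonneg {k M : ℕ} (hP : Pos M k) (t : Fin k → ℂ) (R : Fin k → ℕ)
    (F : Fin k → Finset ℂ) (u : Fin k → ℂ → ℕ)
    (h : ∀ i, ∀ r ∈ F i, (t i / r) ^ M = 1 ∧ t i / r ≠ 1) :
    0 ≤ (∑ a ∈ cop M, ∏ i, ((R i : ℂ) + ∑ r ∈ F i, (u i r : ℂ) * (1 - (t i / r) ^ a))).re := by
  classical
  -- the choices: `none` for the summand `R i`, `some r` for the summand of `r`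
  have h1 : ∀ i a, (R i : ℂ) + ∑ r ∈ F i, (u i r : ℂ) * (1 - (t i / r) ^ a) =
      ∑ x ∈ insert none ((F i).image some), (x.elim (R i : ℂ) (fun r => (u i r : ℂ))) *
        (x.elim 1 (fun r => 1 - (t i / r) ^ a)) := by
    intro i a
    rw [Finset.sum_insert (by simp)]
    rw [Finset.sum_image (by intro x _ y _ hxy; exact Option.some_injective _ hxy)]
    simp
  simp only [h1]
  simp only [Finset.prod_univ_sum]
  rw [Finset.sum_comm, Complex.re_sum]
  refine Finset.sum_nonneg (fun x hx => ?_)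
  rw [Fintype.mem_piFinset] at hx
  simp only [Finset.prod_mul_distrib]
  rw [← Finset.mul_sum]
  have h2 : ∏ i, (x i).elim (R i : ℂ) (fun r => (u i r : ℂ)) =
      ((∏ i, (x i).elim (R i : ℝ) (fun r => (u i r : ℝ)) : ℝ) : ℂ) := by
    rw [Complex.ofReal_prod]
    refine Finset.prod_congr rfl (fun i _ => ?_)
    cases x i <;> simp
  rw [h2, Complex.re_ofReal_mul]
  refine mul_nonneg (Finset.prod_nonneg (fun i _ => ?_)) ?_
  · cases x i <;> simp
  · -- the set of the factors which are different from `1`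
    let J : Finset ℕ := (Finset.univ.filter (fun i : Fin k => (x i).isSome)).image Fin.val
    let s : ℕ → ℂ := fun j => if hj : j < k then (x ⟨j, hj⟩).elim 1 (fun r => t ⟨j, hj⟩ / r) else 1
    have hJ : J.card ≤ k := by
      refine Finset.card_image_le.trans ((Finset.card_filter_le _ _).trans ?_)
      rw [Finset.card_univ, Fintype.card_fin]
    have h3 := hP J s hJ (by
      intro j hj
      rw [Finset.mem_image] at hj
      obtain ⟨i, hi, rfl⟩ := hj
      rw [Finset.mem_filter] at hi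
      obtain ⟨r, hr⟩ := Option.isSome_iff_exists.mp hi.2
      have h4 := hx i
      rw [hr] at h4
      have h5 : r ∈ F i := by
        rw [Finset.mem_insert] at h4
        rcases h4 with h4 | h4
        · exact absurd h4 (by simp)
        · obtain ⟨r', hr', hrr⟩ := Finset.mem_image.mp h4
          rw [← Option.some_injective _ hrr]; exact hr'
      have h6 : s i.1 = t i / r := by
        simp only [s, dif_pos i.2, hr, Option.elim]
      rw [h6]
      exact h i r h5)
    have h4 : ∀ a, ∏ i, (x i).elim 1 (fun r => 1 - (t i / r) ^ a) = ∏ j ∈ J, (1 - s j ^ a) := by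
      intro a
      rw [Finset.prod_image (fun i _ j _ hij => Fin.val_injective hij), Finset.prod_filter]
      refine Finset.prod_congr rfl (fun i _ => ?_)
      cases hr : x i with
      | none => simp
      | some r => simp [s, hr]
    simp only [h4]
    exact h3

namespace Datum

variable {G : Type} [Group G] {k : ℕ} (D : Datum (Fin k) G)

/-- **Criterion.** -/
theorem exists_inv_of_pos [Finite G] (hS : D.SectionRing)
    (hF : ∀ i, D.E i < D.W i ∨ (D.E i = D.W i ∧ D.c i < D.n i)) (hP : Pos D.M k) :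
    ∃ P : D.Poly, D.Inv 1 P ∧ P ∉ D.I := by
  classical
  have _ := Fintype.ofFinite G
  have hE : ∀ i, D.E i ≤ D.W i := fun i => by rcases hF i with h1 | h1 <;> omega
  have hM := D.M_pos
  apply D.exists_inv
  -- sums over the powers of `g`
  have hcop : ∀ a ∈ cop D.M, (Nat.card G).Coprime a := by
    intro a ha
    have h1 := (Finset.mem_filter.mp ha).2
    have h2 : Nat.card G ∣ D.M := by
      rw [M, mul_assoc]; exact Dvd.intro _ rfl
    exact (Nat.Coprime.coprime_dvd_right h2 h1).symm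
  have h1 : ∀ a ∈ cop D.M, ∑ g, ∏ i, (D.A i (g ^ a)).trace = ∑ g, ∏ i, (D.A i g).trace := by
    intro a ha
    exact Fintype.sum_equiv (powCoprime (hcop a ha)) _ _ (fun g => rfl)
  have h2 : ((cop D.M).card : ℂ) * ∑ g, ∏ i, (D.A i g).trace =
      ∑ g, ∑ a ∈ cop D.M, ∏ i, (D.A i (g ^ a)).trace := by
    rw [Finset.sum_comm, Finset.sum_congr rfl h1, Finset.sum_const, nsmul_eq_mul]
  have h3 : 0 < (∑ g, ∑ a ∈ cop D.M, ∏ i, (D.A i (g ^ a)).trace).re := by
    rw [Complex.re_sum]
    refine Finset.sum_pos' (fun g _ => ?_) ⟨1, Finset.mem_univ _, ?_⟩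
    · rcases D.dichotomy hS hE g with ⟨j, _, _, h1⟩ | ⟨t, R, F, u, ht, h1⟩
      · have h4 : ∑ a ∈ cop D.M, ∏ i, (D.A i (g ^ a)).trace = 0 := by
          refine Finset.sum_eq_zero (fun a ha => ?_)
          exact Finset.prod_eq_zero (Finset.mem_univ j) (h1 a (Finset.mem_filter.mp ha).2)
        rw [h4, Complex.zero_re]
      · have h4 : ∑ a ∈ cop D.M, ∏ i, (D.A i (g ^ a)).trace =
            ∑ a ∈ cop D.M, ∏ i, ((R i : ℂ) + ∑ r ∈ F i, (u i r : ℂ) * (1 - (t i / r) ^ a)) := by
          refine Finset.sum_congr rfl (fun a ha => ?_)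
          have h5 : ∀ i, (R i : ℂ) + ∑ r ∈ F i, (u i r : ℂ) * (1 - (t i / r) ^ a) =
              t i ^ a * (D.A i (g ^ a)).trace :=
            fun i => ((h1 i).2.2.2.2.1 a (Finset.mem_filter.mp ha).2).symm
          rw [Finset.prod_congr rfl (fun i _ => h5 i), Finset.prod_mul_distrib, Finset.prod_pow, ht,
            one_pow, one_mul]
        rw [h4]
        exact sum_prod_nonneg hP t R F u (fun i => (h1 i).2.2.2.1)
    · have h4 : ∑ a ∈ cop D.M, ∏ i, (D.A i ((1 : G) ^ a)).trace =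
          (((cop D.M).card * ∏ i, Fintype.card {l : Fin (D.n i) // D.w i l = 1} : ℕ) : ℂ) := by
        simp only [one_pow, D.trace_one]
        rw [Finset.sum_const, nsmul_eq_mul]
        push_cast
        rfl
      rw [h4, Complex.natCast_re]
      have h5 : 0 < (cop D.M).card := by
        apply Finset.card_pos.mpr
        refine ⟨1 % D.M, ?_⟩
        rw [cop, Finset.mem_filter, Finset.mem_range]
        refine ⟨Nat.mod_lt _ hM, ?_⟩
        rw [Nat.Coprime, ← Nat.gcd_rec, Nat.gcd_one_right]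
      exact_mod_cast Nat.mul_pos h5 (Finset.prod_pos (fun i _ => D.one_pos hS hF i))
  have h4 : 0 < ((cop D.M).card : ℝ) * (∑ g, ∏ i, (D.A i g).trace).re := by
    rw [← h2] at h3
    rw [show ((cop D.M).card : ℂ) = (((cop D.M).card : ℝ) : ℂ) by push_cast; rfl,
      Complex.re_ofReal_mul] at h3
    exact h3
  exact pos_of_mul_pos_right h4 (Nat.cast_nonneg _)

end Datum

end Pool.Agent.Helper7.JQ
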