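import Mathlib
import Pool.Agent.Helper21.JQ.Ram

/-! Sums over `a` prime to `M` of products of three numbers `1 - s ^ a`. -/

namespace Pool.Agent.Helper7.JQ

open Finset Pool.Agent.Helper21.JQ

theorem totient_ge10 {o p : ℕ} (ho : 0 < o) (hp : p.Prime) (h5 : 11 ≤ p) (hd : p ∣ o) :
    10 ≤ o.totient := by
  have h1 := Nat.totient_dvd_of_dvd hd
  rw [Nat.totient_prime hp] at h1
  have h2 := Nat.le_of_dvd (Nat.totient_pos.mpr ho) h1
  omega

/-- odd modulus divisible by 3 and prime to 35 -/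
theorem bd_eleven {M : ℕ} (hM : 0 < M) (h2 : ¬ 2 ∣ M) (h5 : ¬ 5 ∣ M) (h7 : ¬ 7 ∣ M) {x : ℂ}
    (hx : x ^ M = 1) (hx1 : x ≠ 1) :
    orderOf x = 3 ∨ (-1 / 10 ≤ cc x ∧ cc x ≤ 1 / 20) := by
  have ho := orderOf_pos_of hM hx
  have hd := orderOf_dvd_of_pow_eq_one hx
  have h1 : orderOf x ≠ 1 := fun h => hx1 (orderOf_eq_one_iff.mp h)
  by_cases h3 : orderOf x = 3
  · exact Or.inl h3
  right
  by_cases hs : Squarefree (orderOf x)
  swap
  · rw [cc_of_not_sq hs]; norm_num
  -- primes dividing a divisor of `M`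
  have hpr : ∀ p, p.Prime → p ∣ M → p = 3 ∨ 11 ≤ p := by
    intro p hp hpM
    by_contra hcon
    push Not at hcon
    have h4 := hp.two_le
    have h6 : p < 11 := hcon.2
    interval_cases p
    · exact h2 hpM
    · exact hcon.1 rfl
    · exact absurd hp (by norm_num)
    · exact h5 hpM
    · exact absurd hp (by norm_num)
    · exact h7 hpM
    · exact absurd hp (by norm_num)
    · exact absurd hp (by norm_num)
    · exact absurd hp (by norm_num)
  have key : ∀ o : ℕ, 0 < o → o ∣ M → o ≠ 1 → Squarefree o → o ≠ 3 →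
      ∃ p, p.Prime ∧ 11 ≤ p ∧ p ∣ o := by
    intro o ho hoM ho1 hs ho3
    by_contra hcon
    push Not at hcon
    have h4 : o ∣ 3 := by
      rw [Nat.dvd_iff_prime_pow_dvd_dvd]
      intro p k hp hpk
      rcases Nat.eq_zero_or_pos k with rfl | hk
      · simp
      have hpo : p ∣ o := (dvd_pow_self p hk.ne').trans hpk
      have hk1 : k = 1 := by
        by_contra hne
        have h2 : p * p ∣ o := by
          rw [← sq]
          exact (pow_dvd_pow p (by omega)).trans hpk
        have := hs p h2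
        exact hp.one_lt.ne' (Nat.isUnit_iff.mp this)
      subst hk1
      rw [pow_one]
      rcases hpr p hp (hpo.trans hoM) with h | h
      · rw [h]
      · exact absurd hpo (hcon p hp h)
    rcases (Nat.dvd_prime Nat.prime_three).mp h4 with h | h
    · exact ho1 h
    · exact ho3 h
  obtain ⟨p, hp, h11, hpo⟩ := key _ ho hd h1 hs h3
  have h4 := totient_ge10 ho hp h11 hpo
  have hb := abs_le.mp (abs_cc_le (x := x) (by norm_num : 0 < 10) h4)
  norm_num at hb
  refine ⟨by linarith [hb.1], ?_⟩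
  obtain ⟨o', ho'⟩ := hpo
  have hpos : (0 : ℝ) < ((orderOf x).totient : ℝ) := by
    exact_mod_cast (by omega : 0 < (orderOf x).totient)
  rw [ho'] at hs
  have hcop : Nat.Coprime p o' := Nat.coprime_of_squarefree_mul hs
  have hso' : Squarefree o' := hs.squarefree_of_dvd (dvd_mul_left _ _)
  have ho'pos : 0 < o' := by
    rcases Nat.eq_zero_or_pos o' with h | h
    · rw [h, mul_zero] at ho'; omega
    · exact h
  by_cases hone : o' = 1
  · rw [hone, mul_one] at ho'
    rw [cc, ho', ArithmeticFunction.moebius_apply_prime hp]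
    push_cast
    rw [div_le_iff₀ (by rw [← ho']; exact hpos)]
    have : (0 : ℝ) ≤ (p.totient : ℝ) := Nat.cast_nonneg _
    linarith
  · have h7' : 2 ≤ o'.totient := by
      by_cases h33 : o' = 3
      · rw [h33]; decide
      · obtain ⟨q, hq, hq5, hqo⟩ := key o' ho'pos ((Dvd.intro_left p ho'.symm).trans hd) hone hso' h33
        have := totient_ge10 ho'pos hq hq5 hqo
        omega
    have h8 : 20 ≤ (orderOf x).totient := by
      rw [ho', Nat.totient_mul hcop, Nat.totient_prime hp]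
      have : 10 ≤ p - 1 := by omega
      nlinarith
    have := abs_le.mp (abs_cc_le (x := x) (by norm_num : 0 < 20) h8)
    norm_num at this
    linarith [this.2]

/-- squares have the same order (odd modulus) -/
theorem cc_sq {M : ℕ} (h2 : ¬ 2 ∣ M) {x : ℂ} (hx : x ^ M = 1) : cc (x ^ 2) = cc x := by
  have h : orderOf (x ^ 2) = orderOf x := by
    apply Nat.Coprime.orderOf_pow
    have hd := orderOf_dvd_of_pow_eq_one hx
    refine Nat.Coprime.coprime_dvd_left hd ?_
    rw [Nat.coprime_comm]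
    exact (Nat.Prime.coprime_iff_not_dvd Nat.prime_two).mpr h2
  rw [cc, cc, h]

/-- sum over the cube roots of unity -/
theorem cc_cube {M : ℕ} (hM : 0 < M) (h3 : 3 ∣ M) {x w : ℂ} (hx : x ^ M = 1) (hw : w ^ 3 = 1)
    (hw1 : w ≠ 1) : cc x + cc (w * x) + cc (w ^ 2 * x) = 0 := by
  have hwM : w ^ M = 1 := by
    obtain ⟨q, rfl⟩ := h3
    rw [pow_mul, hw, one_pow]
  have e1 := sum_eq hM hx
  have e2 := sum_eq hM (pow_mul_eq hwM hx)
  have hw2 : (w ^ 2) ^ M = 1 := by rw [← pow_mul, mul_comm, pow_mul, hwM, one_pow]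
  have e3 := sum_eq hM (pow_mul_eq hw2 hx)
  have h4 : ∑ a ∈ cop M, x ^ a + ∑ a ∈ cop M, (w * x) ^ a + ∑ a ∈ cop M, (w ^ 2 * x) ^ a = 0 := by
    rw [← Finset.sum_add_distrib, ← Finset.sum_add_distrib]
    refine Finset.sum_eq_zero (fun a ha => ?_)
    have h5 := (Finset.mem_filter.mp ha).2
    have h6 : ¬ 3 ∣ a := by
      intro h6
      have h7 : 3 ∣ Nat.gcd a M := Nat.dvd_gcd h6 h3
      rw [h5] at h7
      omega
    have h7 : w ^ a ≠ 1 := by
      intro h8
      have h9 : orderOf w = 3 := orderOf_eq_prime hw hw1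
      have := orderOf_dvd_of_pow_eq_one h8
      rw [h9] at this
      exact h6 this
    have h8 : 1 + w ^ a + (w ^ a) ^ 2 = 0 := by
      have h9 : (w ^ a - 1) * (1 + w ^ a + (w ^ a) ^ 2) = 0 := by
        have : (w ^ a) ^ 3 = 1 := by rw [← pow_mul, mul_comm, pow_mul, hw, one_pow]
        linear_combination this
      rcases mul_eq_zero.mp h9 with h | h
      · exact absurd (sub_eq_zero.mp h) h7
      · exact h
    rw [mul_pow, mul_pow, ← pow_mul, mul_comm 2 a, pow_mul]
    linear_combination (x ^ a) * h8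
  rw [e1, e2, e3, ← mul_add, ← mul_add] at h4
  have hφ : (M.totient : ℂ) ≠ 0 := by
    have := Nat.totient_pos.mpr hM
    exact_mod_cast this.ne'
  rcases mul_eq_zero.mp h4 with h | h
  · exact absurd h hφ
  · exact_mod_cast h

/-- if `s * t` and `s * u` have order three then the sum is zero -/
theorem two_pairs {M : ℕ} (hM : 0 < M) (h2 : ¬ 2 ∣ M) (h3 : 3 ∣ M) {s t u : ℂ} (hs : s ^ M = 1)
    (h4 : orderOf (s * t) = 3) (h5 : orderOf (s * u) = 3) :
    1 - cc s - cc t - cc u + cc (s * t) + cc (s * u) + cc (t * u) - cc (s * t * u) = 0 := by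
  have hs0 := ne_zero_of_pow hM hs
  set w : ℂ := s * t with hw
  have hw3 : w ^ 3 = 1 := by rw [← h4]; exact pow_orderOf_eq_one _
  have hw1 : w ≠ 1 := by
    intro h; rw [h, orderOf_one] at h4; omega
  have hu3 : (s * u) ^ 3 = 1 := by rw [← h5]; exact pow_orderOf_eq_one _
  have hu1 : s * u ≠ 1 := by
    intro h; rw [h, orderOf_one] at h5; omega
  set y : ℂ := s⁻¹ with hy
  have hyM : y ^ M = 1 := by rw [hy, inv_pow, hs, inv_one]
  have ht : t = w * y := by rw [hw, hy]; field_simp
  have hc := cc_cube hM h3 hyM hw3 hw1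
  have hy' : cc s = cc y := (cc_inv s).symm
  have hwM : w ^ M = 1 := by
    obtain ⟨q, rfl⟩ := h3
    rw [pow_mul, hw3, one_pow]
  have hw2M : (w ^ 2) ^ M = 1 := by rw [← pow_mul, mul_comm, pow_mul, hwM, one_pow]
  -- `s * u` is `w` or `w ^ 2`
  have hcase : s * u = w ∨ s * u = w ^ 2 := by
    have h6 : (s * u - 1) * (s * u - w) * (s * u - w ^ 2) = 0 := by
      have h7 : 1 + w + w ^ 2 = 0 := by
        have h8 : (w - 1) * (1 + w + w ^ 2) = 0 := by linear_combination hw3
        rcases mul_eq_zero.mp h8 with h | h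
        · exact absurd (sub_eq_zero.mp h) hw1
        · exact h
      linear_combination hu3 - (s * u) ^ 2 * h7 + (s * u) * (w * h7) - hw3
    rcases mul_eq_zero.mp h6 with h | h
    · rcases mul_eq_zero.mp h with h | h
      · exact absurd (sub_eq_zero.mp h) hu1
      · exact Or.inl (sub_eq_zero.mp h)
    · exact Or.inr (sub_eq_zero.mp h)
  have c1 : cc w = -1 / 2 := cc_three h4
  have c2 : cc (s * u) = -1 / 2 := cc_three h5
  rcases hcase with h | h
  · have hu : u = w * y := by
      rw [hy, ← h]; field_simp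
    -- `t * u = (w * y) ^ 2` and `s * t * u = w ^ 2 * y`
    have e1 : t * u = (w * y) ^ 2 := by rw [ht, hu]; ring
    have e2 : s * t * u = w ^ 2 * y := by rw [← hw, hu]; ring
    rw [c2, c1, e1, e2, cc_sq h2 (pow_mul_eq hwM hyM), hy', ht, hu]
    linarith
  · have hu : u = w ^ 2 * y := by
      rw [hy, ← h]; field_simp
    have e1 : t * u = y ^ 2 := by rw [ht, hu]; linear_combination (y ^ 2) * hw3
    have e2 : s * t * u = y := by rw [← hw, hu]; linear_combination y * hw3
    rw [c2, c1, e1, e2, cc_sq h2 hyM, hy', ht, hu]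
    linarith

theorem pos3 (M : ℕ) (hM : 0 < M) (h2 : ¬ 2 ∣ M) (h15 : ¬ 15 ∣ M) (h21 : ¬ 21 ∣ M) (s t u : ℂ)
    (hs : s ^ M = 1) (ht : t ^ M = 1) (hu : u ^ M = 1) (hs1 : s ≠ 1) (ht1 : t ≠ 1) (hu1 : u ≠ 1) :
    0 ≤ (∑ a ∈ cop M, (1 - s ^ a) * (1 - t ^ a) * (1 - u ^ a)).re := by
  by_cases h3 : 3 ∣ M
  swap
  · refine s_POS3 M (Or.inl ⟨hM, ?_⟩) s t u hs ht hu hs1 ht1 hu1
    rw [show (6 : ℕ) = 2 * 3 by norm_num]
    refine Nat.Coprime.mul_right ?_ ?_
    · rw [Nat.coprime_comm]; exact (Nat.Prime.coprime_iff_not_dvd Nat.prime_two).mpr h2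
    · rw [Nat.coprime_comm]; exact (Nat.Prime.coprime_iff_not_dvd Nat.prime_three).mpr h3
  have h5 : ¬ 5 ∣ M := fun h => h15 (by
    have := Nat.Coprime.mul_dvd_of_dvd_of_dvd (by norm_num : Nat.Coprime 3 5) h3 h
    simpa using this)
  have h7 : ¬ 7 ∣ M := fun h => h21 (by
    have := Nat.Coprime.mul_dvd_of_dvd_of_dvd (by norm_num : Nat.Coprime 3 7) h3 h
    simpa using this)
  rw [re_sum3 hM hs ht hu]
  refine mul_nonneg (Nat.cast_nonneg _) ?_
  have hs0 := ne_zero_of_pow hM hs
  have ht0 := ne_zero_of_pow hM ht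
  have hu0 := ne_zero_of_pow hM hu
  by_cases h1 : s * t * u = 1
  · have e1 : s * t = u⁻¹ := eq_inv_of_mul_eq_one_left h1
    have e2 : s * u = t⁻¹ := eq_inv_of_mul_eq_one_left (by rw [← h1]; ring)
    have e3 : t * u = s⁻¹ := eq_inv_of_mul_eq_one_left (by rw [← h1]; ring)
    rw [h1, cc_one, e1, e2, e3, cc_inv, cc_inv, cc_inv]
    linarith
  have up : ∀ x : ℂ, x ^ M = 1 → x ≠ 1 → cc x ≤ 1 / 20 := by
    intro x hx hx1
    rcases bd_eleven hM h2 h5 h7 hx hx1 with h | h
    · rw [cc_three h]; norm_num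
    · exact h.2
  have low : ∀ x : ℂ, x ^ M = 1 → -1 / 2 ≤ cc x := by
    intro x hx
    by_cases h : x = 1
    · rw [h, cc_one]; norm_num
    · rcases bd_eleven hM h2 h5 h7 hx h with h | h
      · rw [cc_three h]
      · linarith [h.1]
  have low' : ∀ x : ℂ, x ^ M = 1 → orderOf x ≠ 3 → -1 / 10 ≤ cc x := by
    intro x hx hx3
    by_cases h : x = 1
    · rw [h, cc_one]; norm_num
    · rcases bd_eleven hM h2 h5 h7 hx h with h | h
      · exact absurd h hx3
      · exact h.1
  have b1 := up s hs hs1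
  have b2 := up t ht ht1
  have b3 := up u hu hu1
  have b4 := up _ (pow_mul_eq (pow_mul_eq hs ht) hu) h1
  have hst := pow_mul_eq hs ht
  have hsu := pow_mul_eq hs hu
  have htu := pow_mul_eq ht hu
  by_cases c1 : orderOf (s * t) = 3
  · by_cases c2 : orderOf (s * u) = 3
    · exact (two_pairs hM h2 h3 hs c1 c2).ge
    · by_cases c3 : orderOf (t * u) = 3
      · have := two_pairs hM h2 h3 ht (s := t) (t := s) (u := u) (by rw [mul_comm]; exact c1) c3
        have e : t * s * u = s * t * u := by ring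
        rw [e, mul_comm t s] at this
        linarith
      · linarith [low _ hst, low' _ hsu c2, low' _ htu c3]
  · by_cases c2 : orderOf (s * u) = 3
    · by_cases c3 : orderOf (t * u) = 3
      · have := two_pairs hM h2 h3 hu (s := u) (t := s) (u := t) (by rw [mul_comm]; exact c2)
          (by rw [mul_comm]; exact c3)
        have e : u * s * t = s * t * u := by ring
        rw [e, mul_comm u s, mul_comm u t] at this
        linarith
      · linarith [low' _ hst c1, low _ hsu, low' _ htu c3]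
    · linarith [low' _ hst c1, low' _ hsu c2, low _ htu]

end Pool.Agent.Helper7.JQ
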